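import Pool.Agent.Helper18.KP.Pow

/-! Project KS, lemma POW: final statements. -/

set_option autoImplicit false
open MeasureTheory Filter Topology Finset
open scoped Classical

namespace Pool.Agent.Helper18.KP

theorem pow_short (ε : ℝ) (hε : 0 < ε) : ∃ A : ℝ, 0 < A ∧ ∀ x y : ℝ, 1 ≤ x → 0 ≤ y →
    y ≤ Real.sqrt x → ∑ k ∈ Icc ⌈x⌉₊ ⌊x + y⌋₊, wt k ≤ A * Real.sqrt x * x ^ ε := by
  obtain ⟨A, hA, h⟩ := pow_short_large ε hε
  refine ⟨A + 2 ^ 60, by positivity, ?_⟩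
  intro x y hx hy hyx
  have hx0 : 0 < x := by linarith
  have hs : 0 ≤ Real.sqrt x := Real.sqrt_nonneg x
  have hs1 : 1 ≤ Real.sqrt x := Real.one_le_sqrt.2 hx
  have hxε : 1 ≤ x ^ ε := Real.one_le_rpow hx hε.le
  have hP : 0 ≤ Real.sqrt x * x ^ ε := by positivity
  rcases le_or_gt ((2 : ℝ) ^ 36) x with hl | hl
  · refine (h x y hl hy hyx).trans ?_
    nlinarith
  · have hsx : Real.sqrt x ≤ x := by
      nlinarith [Real.mul_self_sqrt hx0.le]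
    have h1 : ∀ k ∈ Icc ⌈x⌉₊ ⌊x + y⌋₊, wt k ≤ 2 * Real.sqrt x := by
      intro k hk
      rw [Finset.mem_Icc] at hk
      have h2 : (k : ℝ) ≤ x + y := (Nat.le_floor_iff (by linarith)).1 hk.2
      refine (wt_le_sqrt k).trans ?_
      have h3 : (k : ℝ) ≤ 4 * x := by linarith
      calc Real.sqrt k ≤ Real.sqrt (4 * x) := Real.sqrt_le_sqrt h3
        _ = 2 * Real.sqrt x := by
          rw [Real.sqrt_mul (by norm_num), show (4 : ℝ) = 2 ^ 2 by norm_num, Real.sqrt_sq (by norm_num)]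
    refine (Finset.sum_le_sum h1).trans ?_
    rw [Finset.sum_const, nsmul_eq_mul]
    have hcard : ((Icc ⌈x⌉₊ ⌊x + y⌋₊).card : ℝ) ≤ 2 ^ 38 := by
      have h2 : (Icc ⌈x⌉₊ ⌊x + y⌋₊).card ≤ ⌊x + y⌋₊ + 1 := by
        rw [Nat.card_Icc]; omega
      have h3 : (⌊x + y⌋₊ : ℝ) ≤ x + y := Nat.floor_le (by linarith)
      have h4 : ((Icc ⌈x⌉₊ ⌊x + y⌋₊).card : ℝ) ≤ (⌊x + y⌋₊ : ℝ) + 1 := by exact_mod_cast h2
      have : (2 : ℝ) ^ 38 = 4 * 2 ^ 36 := by norm_num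
      linarith
    calc ((Icc ⌈x⌉₊ ⌊x + y⌋₊).card : ℝ) * (2 * Real.sqrt x) ≤ 2 ^ 38 * (2 * Real.sqrt x) :=
          mul_le_mul_of_nonneg_right hcard (by positivity)
      _ ≤ 2 ^ 60 * Real.sqrt x := by nlinarith
      _ ≤ 2 ^ 60 * (Real.sqrt x * x ^ ε) := by
        refine mul_le_mul_of_nonneg_left ?_ (by positivity)
        nlinarith
      _ ≤ (A + 2 ^ 60) * Real.sqrt x * x ^ ε := by nlinarith

theorem sum_biUnion_le' (s : Finset ℕ) (t : ℕ → Finset ℕ) (f : ℕ → ℝ) (hf : ∀ k, 0 ≤ f k) :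
    ∑ k ∈ s.biUnion t, f k ≤ ∑ j ∈ s, ∑ k ∈ t j, f k := by
  induction s using Finset.induction with
  | empty => simp
  | insert a s ha ih =>
    rw [Finset.biUnion_insert, Finset.sum_insert ha]
    have h1 : ∑ k ∈ t a ∪ s.biUnion t, f k ≤ ∑ k ∈ t a, f k + ∑ k ∈ s.biUnion t, f k := by
      rw [← Finset.sum_union_inter]
      have : 0 ≤ ∑ k ∈ t a ∩ s.biUnion t, f k := Finset.sum_nonneg fun k _ => hf k
      linarith
    linarith

/-- POW with `wt` -/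
theorem pow_wt (ε : ℝ) (hε : 0 < ε) : ∃ A : ℝ, 0 < A ∧ ∀ x y : ℝ, 1 ≤ x → 0 ≤ y →
    y ≤ x → ∑ k ∈ Icc ⌈x⌉₊ ⌊x + y⌋₊, wt k ≤ A * (y + Real.sqrt x) * x ^ ε := by
  obtain ⟨A, hA, h⟩ := pow_short ε hε
  refine ⟨2 * (A * 2 ^ ε) * 2, by positivity, ?_⟩
  intro x y hx hy hyx
  have hx0 : 0 < x := by linarith
  have hs1 : 1 ≤ Real.sqrt x := Real.one_le_sqrt.2 hx
  have hs0 : 0 < Real.sqrt x := by linarith
  -- number of windows
  set J : ℕ := ⌊y / Real.sqrt x⌋₊ + 1 with hJ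
  have hJr : (J : ℝ) ≤ y / Real.sqrt x + 1 := by
    rw [hJ]; push_cast
    have := Nat.floor_le (show 0 ≤ y / Real.sqrt x by positivity)
    linarith
  have hcover : Icc ⌈x⌉₊ ⌊x + y⌋₊ ⊆ (Finset.range J).biUnion
      (fun j => Icc ⌈x + j * Real.sqrt x⌉₊ ⌊x + j * Real.sqrt x + Real.sqrt x⌋₊) := by
    intro k hk
    rw [Finset.mem_Icc] at hk
    have h1 : x ≤ k := Nat.ceil_le.1 hk.1
    have h2 : (k : ℝ) ≤ x + y := (Nat.le_floor_iff (by linarith)).1 hk.2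
    rw [Finset.mem_biUnion]
    have h3 : 0 ≤ ((k : ℝ) - x) / Real.sqrt x := div_nonneg (by linarith) hs0.le
    refine ⟨⌊((k : ℝ) - x) / Real.sqrt x⌋₊, ?_, ?_⟩
    · rw [Finset.mem_range, hJ]
      have : ⌊((k : ℝ) - x) / Real.sqrt x⌋₊ ≤ ⌊y / Real.sqrt x⌋₊ :=
        Nat.floor_le_floor (div_le_div_of_nonneg_right (by linarith) hs0.le)
      omega
    · have h4 := Nat.floor_le h3
      have h5 := Nat.lt_floor_add_one (((k : ℝ) - x) / Real.sqrt x)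
      rw [le_div_iff₀ hs0] at h4
      rw [div_lt_iff₀ hs0] at h5
      rw [Finset.mem_Icc]
      constructor
      · refine Nat.ceil_le.2 ?_
        linarith
      · refine Nat.le_floor ?_
        linarith
  have h1 : ∑ k ∈ Icc ⌈x⌉₊ ⌊x + y⌋₊, wt k ≤ ∑ j ∈ Finset.range J,
      ∑ k ∈ Icc ⌈x + j * Real.sqrt x⌉₊ ⌊x + j * Real.sqrt x + Real.sqrt x⌋₊, wt k := by
    refine (Finset.sum_le_sum_of_subset_of_nonneg hcover fun k _ _ => wt_nonneg k).trans ?_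
    exact sum_biUnion_le' _ _ _ wt_nonneg
  have h2 : ∀ j ∈ Finset.range J, ∑ k ∈ Icc ⌈x + j * Real.sqrt x⌉₊ ⌊x + j * Real.sqrt x + Real.sqrt x⌋₊, wt k ≤
      2 * (A * 2 ^ ε) * Real.sqrt x * x ^ ε := by
    intro j hj
    have hj0 : (0 : ℝ) ≤ j := Nat.cast_nonneg j
    have hjx : (j : ℝ) * Real.sqrt x ≤ x := by
      rw [Finset.mem_range, hJ] at hj
      have h3 : (j : ℝ) ≤ ⌊y / Real.sqrt x⌋₊ := by exact_mod_cast (by omega : j ≤ ⌊y / Real.sqrt x⌋₊)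
      have h4 := Nat.floor_le (show 0 ≤ y / Real.sqrt x by positivity)
      have h5 : (j : ℝ) ≤ y / Real.sqrt x := h3.trans h4
      rw [le_div_iff₀ hs0] at h5
      linarith
    have hx' : x ≤ x + j * Real.sqrt x := by nlinarith
    have h3 := h (x + j * Real.sqrt x) (Real.sqrt x) (by linarith) hs0.le (Real.sqrt_le_sqrt hx')
    refine h3.trans ?_
    have h4 : Real.sqrt (x + j * Real.sqrt x) ≤ 2 * Real.sqrt x := by
      calc Real.sqrt (x + j * Real.sqrt x) ≤ Real.sqrt (4 * x) := Real.sqrt_le_sqrt (by linarith)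
        _ = 2 * Real.sqrt x := by
          rw [Real.sqrt_mul (by norm_num), show (4 : ℝ) = 2 ^ 2 by norm_num, Real.sqrt_sq (by norm_num)]
    have h5 : (x + j * Real.sqrt x) ^ ε ≤ 2 ^ ε * x ^ ε := by
      rw [← Real.mul_rpow (by norm_num) hx0.le]
      exact Real.rpow_le_rpow (by positivity) (by linarith) hε.le
    calc A * Real.sqrt (x + j * Real.sqrt x) * (x + j * Real.sqrt x) ^ ε
        ≤ A * (2 * Real.sqrt x) * (2 ^ ε * x ^ ε) := by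
          refine mul_le_mul (mul_le_mul_of_nonneg_left h4 hA.le) h5 (by positivity) (by positivity)
      _ = 2 * (A * 2 ^ ε) * Real.sqrt x * x ^ ε := by ring
  refine h1.trans ((Finset.sum_le_sum h2).trans ?_)
  rw [Finset.sum_const, Finset.card_range, nsmul_eq_mul]
  have h6 : (J : ℝ) * Real.sqrt x ≤ y + Real.sqrt x := by
    calc (J : ℝ) * Real.sqrt x ≤ (y / Real.sqrt x + 1) * Real.sqrt x := mul_le_mul_of_nonneg_right hJr hs0.le
      _ = y + Real.sqrt x := by field_simp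
  have hxε : 0 < x ^ ε := by positivity
  calc (J : ℝ) * (2 * (A * 2 ^ ε) * Real.sqrt x * x ^ ε) = 2 * (A * 2 ^ ε) * (J * Real.sqrt x) * x ^ ε := by ring
    _ ≤ 2 * (A * 2 ^ ε) * (y + Real.sqrt x) * x ^ ε := by
      refine mul_le_mul_of_nonneg_right (mul_le_mul_of_nonneg_left h6 (by positivity)) hxε.le
    _ ≤ 2 * (A * 2 ^ ε) * 2 * (y + Real.sqrt x) * x ^ ε := by
      refine mul_le_mul_of_nonneg_right (mul_le_mul_of_nonneg_right ?_ (by positivity)) hxε.le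
      have : 0 < 2 * (A * 2 ^ ε) := by positivity
      linarith

/-- **Lemma POW**: `∑_{x ≤ k ≤ x+y} (k / rad k)^(1/2) ≤ C (y + x^(1/2)) x^ε`. -/
theorem pow_half (ε : ℝ) (hε : 0 < ε) : ∃ C : ℝ, 0 < C ∧ ∀ x y : ℝ, 1 ≤ x → 0 ≤ y → y ≤ x →
    ∑ k ∈ Icc ⌈x⌉₊ ⌊x + y⌋₊, ((k : ℝ) / ∏ p ∈ k.primeFactors, (p : ℝ)) ^ (1 / 2 : ℝ) ≤
      C * (y + x ^ (1 / 2 : ℝ)) * x ^ ε := by
  obtain ⟨A, hA, h⟩ := pow_wt ε hε
  refine ⟨A, hA, fun x y hx hy hyx => ?_⟩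
  have h1 := h x y hx hy hyx
  simp only [wt, Real.sqrt_eq_rpow] at h1
  exact h1

end Pool.Agent.Helper18.KP
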