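import Pool.Agent.Helper18.KP.Box3

/-! Project KS, lemma POW: decomposition of an integer by exponents. -/

set_option autoImplicit false
open Finset
open scoped Classical

namespace Pool.Agent.Helper18.KP

/-- the product of the primes of exponent exactly `e` -/
noncomputable def cp (k e : ℕ) : ℕ := ∏ p ∈ k.primeFactors.filter (fun p => k.factorization p = e), p

noncomputable def ap (V k : ℕ) : ℕ :=
  ∏ p ∈ k.primeFactors.filter (fun p => V ≤ k.factorization p), p ^ (k.factorization p / V)

noncomputable def bp (V k : ℕ) : ℕ :=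
  ∏ p ∈ k.primeFactors.filter (fun p => V ≤ k.factorization p), p ^ (k.factorization p % V)

theorem cp_pos (k e : ℕ) : 1 ≤ cp k e := by
  refine Nat.one_le_iff_ne_zero.2 (Finset.prod_ne_zero_iff.2 fun p hp => ?_)
  rw [Finset.mem_filter] at hp
  exact (Nat.prime_of_mem_primeFactors hp.1).ne_zero

theorem ap_pos (V k : ℕ) : 1 ≤ ap V k := by
  refine Nat.one_le_iff_ne_zero.2 (Finset.prod_ne_zero_iff.2 fun p hp => ?_)
  rw [Finset.mem_filter] at hp
  exact pow_ne_zero _ (Nat.prime_of_mem_primeFactors hp.1).ne_zero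

theorem bp_pos (V k : ℕ) : 1 ≤ bp V k := by
  refine Nat.one_le_iff_ne_zero.2 (Finset.prod_ne_zero_iff.2 fun p hp => ?_)
  rw [Finset.mem_filter] at hp
  exact pow_ne_zero _ (Nat.prime_of_mem_primeFactors hp.1).ne_zero

theorem bp_dvd (V k : ℕ) (hV : 1 ≤ V) : bp V k ∣ ap V k ^ V := by
  unfold bp ap
  rw [← Finset.prod_pow]
  refine Finset.prod_dvd_prod_of_dvd _ _ fun p hp => ?_
  rw [Finset.mem_filter] at hp
  rw [← pow_mul]
  refine pow_dvd_pow _ ?_
  have h1 : k.factorization p % V < V := Nat.mod_lt _ (by omega)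
  have h2 : 1 ≤ k.factorization p / V := (Nat.one_le_div_iff (by omega)).2 hp.2
  calc k.factorization p % V ≤ V := h1.le
    _ = 1 * V := (one_mul V).symm
    _ ≤ k.factorization p / V * V := Nat.mul_le_mul_right V h2

theorem fiber_prod (r k : ℕ) (F : ℕ → ℕ) :
    ∏ i : Fin r, ∏ p ∈ k.primeFactors.filter (fun p => k.factorization p = (i : ℕ) + 1), F p =
      ∏ p ∈ k.primeFactors.filter (fun p => ¬ r + 1 ≤ k.factorization p), F p := by
  rw [← Finset.prod_range (fun i => ∏ p ∈ k.primeFactors.filter (fun p => k.factorization p = i + 1), F p)]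
  rw [← Finset.prod_fiberwise_of_maps_to (s := k.primeFactors.filter (fun p => ¬ r + 1 ≤ k.factorization p))
    (t := Finset.range r) (g := fun p => k.factorization p - 1)]
  · refine Finset.prod_congr rfl fun i hi => ?_
    rw [Finset.mem_range] at hi
    refine Finset.prod_congr ?_ fun _ _ => rfl
    ext p
    simp only [Finset.mem_filter]
    constructor
    · rintro ⟨h1, h2⟩
      exact ⟨⟨h1, by omega⟩, by omega⟩
    · rintro ⟨⟨h1, h2⟩, h3⟩
      have h4 : 0 < k.factorization p :=
        (Nat.prime_of_mem_primeFactors h1).factorization_pos_of_dvd (by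
          have := Nat.mem_primeFactors.1 h1; exact this.2.2) (Nat.dvd_of_mem_primeFactors h1)
      exact ⟨h1, by omega⟩
  · intro p hp
    rw [Finset.mem_filter] at hp
    have h4 : 0 < k.factorization p :=
        (Nat.prime_of_mem_primeFactors hp.1).factorization_pos_of_dvd (by
          have := Nat.mem_primeFactors.1 hp.1; exact this.2.2) (Nat.dvd_of_mem_primeFactors hp.1)
    rw [Finset.mem_range]
    omega

theorem decomp (r k : ℕ) (hk : k ≠ 0) :
    k = ap (r + 1) k ^ (r + 1) * bp (r + 1) k * val (fun i : Fin r => cp k ((i : ℕ) + 1)) := by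
  have h1 : ap (r + 1) k ^ (r + 1) * bp (r + 1) k =
      ∏ p ∈ k.primeFactors.filter (fun p => r + 1 ≤ k.factorization p), p ^ k.factorization p := by
    unfold ap bp
    rw [← Finset.prod_pow, ← Finset.prod_mul_distrib]
    refine Finset.prod_congr rfl fun p _ => ?_
    rw [← pow_mul, ← pow_add]
    congr 1
    rw [mul_comm]
    exact Nat.div_add_mod _ _
  have h2 : val (fun i : Fin r => cp k ((i : ℕ) + 1)) =
      ∏ p ∈ k.primeFactors.filter (fun p => ¬ r + 1 ≤ k.factorization p), p ^ k.factorization p := by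
    rw [← fiber_prod r k (fun p => p ^ k.factorization p)]
    unfold val cp
    refine Finset.prod_congr rfl fun i _ => ?_
    rw [← Finset.prod_pow]
    refine Finset.prod_congr rfl fun p hp => ?_
    rw [Finset.mem_filter] at hp
    rw [hp.2]
  rw [h1, h2, Finset.prod_filter_mul_prod_filter_not]
  conv_lhs => rw [← Nat.prod_factorization_pow_eq_self hk]
  rfl

theorem prod_cp_le (r k : ℕ) : ∏ i : Fin r, cp k ((i : ℕ) + 1) ≤ ∏ p ∈ k.primeFactors, p := by
  have h1 : ∏ i : Fin r, cp k ((i : ℕ) + 1) =
      ∏ p ∈ k.primeFactors.filter (fun p => ¬ r + 1 ≤ k.factorization p), p := fiber_prod r k (fun p => p)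
  rw [h1]
  refine Finset.prod_le_prod_of_subset_of_one_le' (Finset.filter_subset _ _) fun p hp _ => ?_
  exact (Nat.prime_of_mem_primeFactors hp).one_le

end Pool.Agent.Helper18.KP
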