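import Mathlib

/-! Project KS, lemma POW: the exponents of Hölder's inequality. -/

set_option autoImplicit false
open Finset
open scoped Classical

namespace Pool.Agent.Helper18.KP

/-- number of factors used for a variable of logarithmic size `c` -/
noncomputable def kap (K : ℕ) (c : ℝ) : ℕ := if c ≤ 0 then K else min ⌊1 / c⌋₊ K

theorem kap_le (K : ℕ) (c : ℝ) : kap K c ≤ K := by
  unfold kap
  split_ifs
  · exact le_rfl
  · exact min_le_right _ _

theorem kap_pos {K : ℕ} (hK : 1 ≤ K) {c : ℝ} (hc : c ≤ 1) : 1 ≤ kap K c := by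
  unfold kap
  split_ifs with h
  · exact hK
  · push Not at h
    refine le_min ?_ hK
    rw [Nat.one_le_floor_iff, le_div_iff₀ h]
    linarith

theorem kap_mul (K : ℕ) {c : ℝ} : (kap K c : ℝ) * c ≤ 1 := by
  unfold kap
  split_ifs with h
  · have : (0 : ℝ) ≤ K := Nat.cast_nonneg K
    nlinarith
  · push Not at h
    have h1 : ((min ⌊1 / c⌋₊ K : ℕ) : ℝ) ≤ 1 / c := by
      refine le_trans ?_ (Nat.floor_le (by positivity))
      exact_mod_cast min_le_left _ _
    rwa [le_div_iff₀ h] at h1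

theorem one_div_kap {K : ℕ} (hK : 1 ≤ K) {c : ℝ} (h0 : 0 ≤ c) (hc : c ≤ 1 / 2) :
    (1 : ℝ) / kap K c ≤ 1 / K ∨ (0 < c ∧ ∃ k : ℕ, 2 ≤ k ∧ kap K c = k ∧ (1 : ℝ) < (k + 1) * c) := by
  unfold kap
  split_ifs with h
  · left; exact le_rfl
  · push Not at h
    rcases le_or_gt K ⌊1 / c⌋₊ with h1 | h1
    · left; rw [min_eq_right h1]
    · right
      rw [min_eq_left h1.le]
      refine ⟨h, ⌊1 / c⌋₊, ?_, rfl, ?_⟩
      · refine Nat.le_floor ?_
        rw [le_div_iff₀ h]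
        push_cast
        linarith
      · have := Nat.lt_floor_add_one (1 / c)
        rwa [div_lt_iff₀ h] at this

theorem one_div_kap_a {K : ℕ} (hK : 1 ≤ K) {c : ℝ} (h0 : 0 ≤ c) (hc : c ≤ 1 / 2) :
    (1 : ℝ) / kap K c ≤ 3 / 2 * c + 1 / K := by
  have hK0 : (0 : ℝ) < K := by exact_mod_cast hK
  rcases one_div_kap hK h0 hc with h | ⟨hc0, k, hk2, hk, hk1⟩
  · linarith
  · rw [hk]
    have hk0 : (0 : ℝ) < k := by exact_mod_cast (by omega : 0 < k)
    have hk3 : (2 : ℝ) ≤ k := by exact_mod_cast hk2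
    have h1 : (1 : ℝ) / k ≤ 3 / 2 * c := by
      rw [div_le_iff₀ hk0]
      nlinarith
    have h2 : (0 : ℝ) < 1 / K := by positivity
    linarith

theorem one_div_kap_b {K : ℕ} (hK : 1 ≤ K) {c : ℝ} (h0 : 0 ≤ c) (hc : c ≤ 1 / 2) :
    (1 : ℝ) / kap K c ≤ c + 1 / 6 + 1 / K := by
  have hK0 : (0 : ℝ) < K := by exact_mod_cast hK
  rcases one_div_kap hK h0 hc with h | ⟨hc0, k, hk2, hk, hk1⟩
  · linarith
  · rw [hk]
    have hk0 : (0 : ℝ) < k := by exact_mod_cast (by omega : 0 < k)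
    have hk3 : (2 : ℝ) ≤ k := by exact_mod_cast hk2
    have h1 : (1 : ℝ) / (k + 1) < c := by
      rw [div_lt_iff₀ (by positivity)]
      linarith
    have h3 : (1 : ℝ) / k - 1 / (k + 1) ≤ 1 / 6 := by
      rw [div_sub_div _ _ hk0.ne' (by positivity), div_le_div_iff₀ (by positivity) (by norm_num)]
      nlinarith
    have h2 : (0 : ℝ) < 1 / K := by positivity
    linarith

/-- the sum of the reciprocals is at most `2` -/
theorem sum_kap {m K : ℕ} (hK : 1 ≤ K) (c : Fin (m + 2) → ℝ) (η : ℝ) (hη : 0 ≤ η)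
    (h0 : ∀ i, 0 ≤ c i) (h1 : c 0 ≤ 1) (h2 : ∀ i : Fin (m + 1), c i.succ ≤ 1 / 2)
    (hs : ∑ i : Fin (m + 2), ((i : ℕ) + 1 : ℝ) * c i ≤ 2 + η)
    (hη2 : 3 / 4 * η + (m + 2) / K ≤ 1 / 12) :
    ∑ i : Fin (m + 2), (1 : ℝ) / kap K (c i) ≤ 2 := by
  have hK0 : (0 : ℝ) < K := by exact_mod_cast hK
  rcases le_or_gt (c 0) (1 / 2) with hc | hc
  · have h3 : ∀ i ∈ (Finset.univ : Finset (Fin (m + 2))), (1 : ℝ) / kap K (c i) ≤ 3 / 2 * c i + 1 / K := by
      intro i _
      refine one_div_kap_a hK (h0 i) ?_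
      rcases Fin.eq_zero_or_eq_succ i with rfl | ⟨j, rfl⟩
      · exact hc
      · exact h2 j
    refine (Finset.sum_le_sum h3).trans ?_
    rw [Finset.sum_add_distrib, ← Finset.mul_sum, Finset.sum_const, Finset.card_univ, Fintype.card_fin,
      nsmul_eq_mul]
    have h4 : ∑ i : Fin (m + 2), c i ≤ (c 0 + (2 + η)) / 2 := by
      rw [Fin.sum_univ_succ] at hs ⊢
      have h5 : ∑ i : Fin (m + 1), 2 * c i.succ ≤ ∑ i : Fin (m + 1), (((i.succ : Fin (m + 2)) : ℕ) + 1 : ℝ) * c i.succ := by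
        refine Finset.sum_le_sum fun i _ => mul_le_mul_of_nonneg_right ?_ (h0 _)
        rw [Fin.val_succ]
        push_cast
        have : (0 : ℝ) ≤ (i : ℕ) := Nat.cast_nonneg _
        linarith
      rw [← Finset.mul_sum] at h5
      simp only [Fin.val_zero, Nat.cast_zero, zero_add, one_mul] at hs
      linarith
    have h6 : ((m + 2 : ℕ) : ℝ) * (1 / K) = (m + 2) / K := by push_cast; ring
    rw [h6]
    linarith
  · rw [Fin.sum_univ_succ, Fin.sum_univ_succ] at hs ⊢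
    simp only [Fin.val_zero, Nat.cast_zero, zero_add, one_mul, Fin.val_succ] at hs
    have h3 : ∀ i ∈ (Finset.univ : Finset (Fin m)), (1 : ℝ) / kap K (c i.succ.succ) ≤
        3 / 2 * c i.succ.succ + 1 / K := by
      intro i _
      exact one_div_kap_a hK (h0 _) (h2 _)
    have h4 := Finset.sum_le_sum h3
    rw [Finset.sum_add_distrib, ← Finset.mul_sum, Finset.sum_const, Finset.card_univ, Fintype.card_fin,
      nsmul_eq_mul] at h4
    have h5 := one_div_kap_b hK (h0 (Fin.succ 0)) (h2 0)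
    have h6 : (1 : ℝ) / kap K (c 0) ≤ 1 := by
      rw [div_le_one (by exact_mod_cast kap_pos hK h1)]
      exact_mod_cast kap_pos hK h1
    have h7 : ∑ i : Fin m, 3 * c i.succ.succ ≤ ∑ i : Fin m, ((((i : ℕ) + 1 + 1 : ℕ) : ℝ) + 1) * c i.succ.succ := by
      refine Finset.sum_le_sum fun i _ => mul_le_mul_of_nonneg_right ?_ (h0 _)
      push_cast
      have : (0 : ℝ) ≤ (i : ℕ) := Nat.cast_nonneg _
      linarith
    rw [← Finset.mul_sum] at h7
    have h8 : (m : ℝ) * (1 / K) + 1 / K ≤ (m + 2) / K := by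
      rw [← sub_nonneg]
      have : ((m : ℝ) + 2) / K - ((m : ℝ) * (1 / K) + 1 / K) = 1 / K := by ring
      rw [this]; positivity
    push_cast at hs h7
    linarith

end Pool.Agent.Helper18.KP
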