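import Pool.Agent.Helper18.KP.Hold
import Pool.Agent.Helper18.KP.Num

/-! Project KS, lemma POW: points in a dyadic box. -/

set_option autoImplicit false
open MeasureTheory Filter Topology Finset
open scoped Classical

namespace Pool.Agent.Helper18.KP

open Pool.Agent.Helper60.KS Pool.Agent.Helper65.KC

/-- value of a tuple -/
def val {r : ℕ} (c : Fin r → ℕ) : ℕ := ∏ i, c i ^ ((i : ℕ) + 1)

theorem log_val {r : ℕ} (c : Fin r → ℕ) (hc : ∀ i, 1 ≤ c i) :
    Real.log (val c) = ∑ i : Fin r, (((i : ℕ) : ℝ) + 1) * Real.log (c i) := by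
  unfold val
  push_cast
  rw [Real.log_prod]
  · refine Finset.sum_congr rfl fun i _ => ?_
    rw [Real.log_pow]
    push_cast
    ring
  · intro i _
    have := hc i
    have : (c i : ℝ) ≠ 0 := by exact_mod_cast (by omega : c i ≠ 0)
    positivity

theorem GP_prod {r : ℕ} (S : Fin r → Finset ℕ) (hS : ∀ i, ∀ a ∈ S i, 1 ≤ a) (t : ℝ) :
    GP (Fintype.piFinset S) val 1 t = ∏ i : Fin r, GP (S i) id (((i : ℕ) : ℝ) + 1) t := by
  unfold GP
  rw [Finset.prod_univ_sum]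
  refine Finset.sum_congr rfl fun c hc => ?_
  have hc1 : ∀ i, 1 ≤ c i := fun i => hS i _ ((Fintype.mem_piFinset.1 hc) i)
  rw [← Complex.exp_sum, log_val c hc1, one_mul]
  congr 1
  rw [← Finset.mul_sum]
  congr 1
  rw [Finset.sum_mul]
  push_cast
  rfl

/-- the box -/
def box {r : ℕ} (C : Fin r → ℕ) : Finset (Fin r → ℕ) := Fintype.piFinset (fun i => Ico (C i) (2 * C i))

theorem core (r K : ℕ) (ε : ℝ) (hε : 0 < ε) : ∃ A : ℝ, 0 < A ∧ ∀ (T : ℝ) (C κ : Fin r → ℕ), 1 ≤ T →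
    (∀ i, 1 ≤ C i) → (∀ i, 1 ≤ κ i ∧ κ i ≤ K) → (∀ i, (C i : ℝ) ^ (κ i) ≤ T) →
    ∑ i, (1 : ℝ) / (2 * κ i) ≤ 1 → ∀ y0 : ℝ,
    (((box C).filter (fun c => |Real.log (val c) - y0| ≤ 1 / T)).card : ℝ) ≤
      A * T ^ ε * ∏ i, Real.sqrt (C i) := by
  obtain ⟨Cm, hCm, hmom⟩ := moment
  set ε' : ℝ := ε / (r + 1) with hε'
  have hε'0 : 0 < ε' := by positivity
  obtain ⟨Cd, hCd, hdiv⟩ := Pool.Agent.Helper89.SLE.divisor_bound ε' hε'0
  set C2 : ℝ := max 1 (Cm * (1 + 3 * 2 ^ K)) with hC2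
  have hC21 : 1 ≤ C2 := le_max_left _ _
  set Q : ℝ := Cd * (2 ^ K) ^ ε' * C2 with hQ
  have h2K : (1 : ℝ) ≤ (2 ^ K) ^ ε' := Real.one_le_rpow (one_le_pow₀ (by norm_num)) hε'0.le
  have hQ1 : 1 ≤ Q := by
    rw [hQ]
    have : 1 ≤ Cd * (2 ^ K) ^ ε' := by nlinarith
    nlinarith
  refine ⟨2 * Q ^ r, by positivity, ?_⟩
  intro T C κ hT hC hκ hCκ hsum y0
  have hT0 : 0 < T := by linarith
  set D : ℕ := ⌊Cd * (2 ^ K * T) ^ ε'⌋₊ with hD
  have hDr : (D : ℝ) ≤ Cd * (2 ^ K * T) ^ ε' := Nat.floor_le (by positivity)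
  have hTε : 1 ≤ T ^ ε' := Real.one_le_rpow hT hε'0.le
  have hDQ : (D : ℝ) * C2 ≤ Q * T ^ ε' := by
    rw [hQ]
    calc (D : ℝ) * C2 ≤ Cd * (2 ^ K * T) ^ ε' * C2 := mul_le_mul_of_nonneg_right hDr (by linarith)
      _ = Cd * (2 ^ K) ^ ε' * C2 * T ^ ε' := by
        rw [Real.mul_rpow (by positivity) hT0.le]; ring
  set B : Fin r → ℝ := fun i => C i * (D * C2) with hB
  set G : Fin r → ℝ → ℂ := fun i t => GP (Ico (C i) (2 * C i)) id (((i : ℕ) : ℝ) + 1) t with hG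
  have hcard : ∀ i, (Ico (C i) (2 * C i)).card = C i := by
    intro i; rw [Nat.card_Ico]; omega
  have hmomi : ∀ i ∈ (Finset.univ : Finset (Fin r)), ∫ t : ℝ, Real.exp (-(t / T) ^ 2) * ‖G i t‖ ^ (2 * κ i) ≤
      T * B i ^ (κ i) := by
    intro i _
    have h1 := hmom (κ i) ℕ (Ico (C i) (2 * C i)) id (((i : ℕ) : ℝ) + 1) T (2 * C i) 1 D hT
      (by have : (0 : ℝ) ≤ (i : ℕ) := Nat.cast_nonneg _
          linarith) ?_ ?_ ?_
    · refine h1.trans ?_
      rw [hcard i]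
      have hCi : (0 : ℝ) < C i := by exact_mod_cast hC i
      have hk := hκ i
      have e1 : (((2 * C i : ℕ) : ℝ)) ^ (κ i) ≤ 2 ^ K * T := by
        push_cast
        rw [mul_pow]
        exact mul_le_mul (pow_le_pow_right₀ (by norm_num) hk.2) (hCκ i) (by positivity) (by positivity)
      have e2 : 1 + 3 * (((2 * C i : ℕ) : ℝ)) ^ (κ i) / T ≤ 1 + 3 * 2 ^ K := by
        have : 3 * (((2 * C i : ℕ) : ℝ)) ^ (κ i) / T ≤ 3 * 2 ^ K := by
          rw [div_le_iff₀ hT0]; linarith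
        linarith
      have e3 : Cm * (1 + 3 * (((2 * C i : ℕ) : ℝ)) ^ (κ i) / T) ≤ C2 ^ (κ i) := by
        calc Cm * (1 + 3 * (((2 * C i : ℕ) : ℝ)) ^ (κ i) / T) ≤ Cm * (1 + 3 * 2 ^ K) :=
              mul_le_mul_of_nonneg_left e2 hCm.le
          _ ≤ C2 := le_max_right _ _
          _ = C2 ^ 1 := (pow_one _).symm
          _ ≤ C2 ^ (κ i) := pow_le_pow_right₀ hC21 hk.1
      calc Cm * T * ((C i : ℝ) ^ κ i * ((1 : ℕ) * (D : ℝ)) ^ κ i * (1 + 3 * (((2 * C i : ℕ) : ℝ)) ^ κ i / T))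
          = T * ((C i : ℝ) ^ κ i * (D : ℝ) ^ κ i) * (Cm * (1 + 3 * (((2 * C i : ℕ) : ℝ)) ^ (κ i) / T)) := by
            push_cast; ring
        _ ≤ T * ((C i : ℝ) ^ κ i * (D : ℝ) ^ κ i) * C2 ^ (κ i) :=
            mul_le_mul_of_nonneg_left e3 (by positivity)
        _ = T * B i ^ (κ i) := by rw [hB]; simp only; rw [mul_pow, mul_pow]; ring
    · intro j hj
      rw [Finset.mem_Ico] at hj
      have := hC i
      exact ⟨by simp only [id]; omega, by simp only [id]; omega⟩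
    · intro m'
      refine Finset.card_le_one.2 ?_
      intro a ha b hb
      rw [Finset.mem_filter] at ha hb
      simp only [id] at ha hb
      rw [ha.2, hb.2]
    · intro m' hm1 hm2
      refine Nat.le_floor ?_
      refine (hdiv m' hm1).trans ?_
      refine mul_le_mul_of_nonneg_left ?_ (by linarith)
      refine Real.rpow_le_rpow (Nat.cast_nonneg _) ?_ hε'0.le
      have : (m' : ℝ) ≤ ((2 * C i : ℕ) : ℝ) ^ (κ i) := by exact_mod_cast hm2
      refine this.trans ?_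
      push_cast
      rw [mul_pow]
      exact mul_le_mul (pow_le_pow_right₀ (by norm_num) (hκ i).2) (hCκ i) (by positivity) (by positivity)
  have hH := holder (Finset.univ : Finset (Fin r)) κ (fun i _ => (hκ i).1) hsum G
    (fun i _ => GP_continuous _ _ _) (fun i => ((Ico (C i) (2 * C i)).card : ℝ))
    (fun i _ t => GP_norm_le _ _ _ _) B (fun i _ => by rw [hB]; positivity) T hT hmomi
  have hdet := detect (box C) val 1 y0 T hT
  simp only [one_mul] at hdet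
  refine hdet.trans ?_
  have e4 : ∀ t : ℝ, ‖GP (box C) val 1 t‖ = ∏ i, ‖G i t‖ := by
    intro t
    rw [box, GP_prod _ (fun i a ha => by rw [Finset.mem_Ico] at ha; have := hC i; omega), norm_prod]
  simp_rw [e4]
  have e5 : ∏ i, Real.sqrt (B i) ≤ (Q ^ r * T ^ ε) * ∏ i, Real.sqrt (C i) := by
    have e6 : ∀ i, Real.sqrt (B i) ≤ Real.sqrt (C i) * (Q * T ^ ε') := by
      intro i
      rw [hB]
      simp only
      rw [Real.sqrt_mul (Nat.cast_nonneg _)]
      refine mul_le_mul_of_nonneg_left ?_ (Real.sqrt_nonneg _)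
      refine (Real.sqrt_le_sqrt hDQ).trans ?_
      have h1 : 1 ≤ Q * T ^ ε' := by nlinarith
      rw [Real.sqrt_le_left (by linarith)]
      nlinarith
    refine (Finset.prod_le_prod (fun i _ => Real.sqrt_nonneg _) fun i _ => e6 i).trans ?_
    rw [Finset.prod_mul_distrib, Finset.prod_const, Finset.card_univ, Fintype.card_fin, mul_comm]
    refine mul_le_mul_of_nonneg_right ?_ (Finset.prod_nonneg fun i _ => Real.sqrt_nonneg _)
    rw [mul_pow, ← Real.rpow_natCast (T ^ ε'), ← Real.rpow_mul hT0.le]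
    refine mul_le_mul_of_nonneg_left ?_ (by positivity)
    refine Real.rpow_le_rpow_of_exponent_le hT ?_
    rw [hε', div_mul_eq_mul_div, div_le_iff₀ (by positivity)]
    nlinarith
  calc 1 / T * ∫ t : ℝ, Real.exp (-(t / T) ^ 2) * ∏ i, ‖G i t‖
      ≤ 1 / T * (2 * T * ∏ i, Real.sqrt (B i)) := mul_le_mul_of_nonneg_left hH (by positivity)
    _ = 2 * ∏ i, Real.sqrt (B i) := by field_simp
    _ ≤ 2 * ((Q ^ r * T ^ ε) * ∏ i, Real.sqrt (C i)) := by linarith
    _ = 2 * Q ^ r * T ^ ε * ∏ i, Real.sqrt (C i) := by ring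

end Pool.Agent.Helper18.KP
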