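import Pool.Agent.Helper18.KP.Box

/-! Project KS, lemma POW: points in a dyadic box, the other cases. -/

set_option autoImplicit false
open MeasureTheory Filter Topology Finset
open scoped Classical

namespace Pool.Agent.Helper18.KP

open Pool.Agent.Helper60.KS Pool.Agent.Helper65.KC

theorem core2 (r : ℕ) (ε : ℝ) (hε : 0 < ε) : ∃ A : ℝ, 0 < A ∧ ∀ (T : ℝ) (C : Fin r → ℕ), 1 ≤ T →
    (∀ i, 1 ≤ C i) → ∀ i0 : Fin r, 1 ≤ (i0 : ℕ) → T ≤ (C i0 : ℝ) ^ 2 → ((val C : ℕ) : ℝ) ≤ 2 * T ^ 2 →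
    ∀ y0 : ℝ, (((box C).filter (fun c => |Real.log (val c) - y0| ≤ 1 / T)).card : ℝ) ≤
      A * T ^ ε * ∏ i, Real.sqrt (C i) := by
  obtain ⟨Cm, hCm, hmom⟩ := moment
  set ε' : ℝ := ε / (r + 2) with hε'
  have hε'0 : 0 < ε' := by positivity
  obtain ⟨Cd, hCd, hdiv⟩ := Pool.Agent.Helper89.SLE.divisor_bound ε' hε'0
  set s : ℕ := ∑ i : Fin r, ((i : ℕ) + 1) with hs
  set C2 : ℝ := max 1 (Cm * (1 + 3 * 2 ^ (s + 4))) with hC2
  have hC21 : 1 ≤ C2 := le_max_left _ _
  set Q : ℝ := Cd * (2 ^ (s + 4)) ^ ε' with hQ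
  have h2K : (1 : ℝ) ≤ (2 ^ (s + 4)) ^ ε' := Real.one_le_rpow (one_le_pow₀ (by norm_num)) hε'0.le
  have hQ1 : 1 ≤ Q := by
    rw [hQ]; nlinarith
  refine ⟨2 * (Q ^ (r + 2) * C2 ^ 2), by positivity, ?_⟩
  intro T C hT hC i0 hi0 hTC hval y0
  have hT0 : 0 < T := by linarith
  set D : ℕ := ⌊Cd * (2 ^ (s + 4) * T) ^ ε'⌋₊ with hD
  have hDr : (D : ℝ) ≤ Cd * (2 ^ (s + 4) * T) ^ ε' := Nat.floor_le (by positivity)
  have hTε : 1 ≤ T ^ ε' := Real.one_le_rpow hT hε'0.le
  have hDQ : (D : ℝ) ≤ Q * T ^ ε' := by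
    rw [hQ]
    calc (D : ℝ) ≤ Cd * (2 ^ (s + 4) * T) ^ ε' := hDr
      _ = Cd * (2 ^ (s + 4)) ^ ε' * T ^ ε' := by
        rw [Real.mul_rpow (by positivity) hT0.le]; ring
  have hDdiv : ∀ m : ℕ, 1 ≤ m → (m : ℝ) ≤ 2 ^ (s + 4) * T → m.divisors.card ≤ D := by
    intro m hm1 hm2
    refine Nat.le_floor ?_
    refine (hdiv m hm1).trans ?_
    refine mul_le_mul_of_nonneg_left ?_ (by linarith)
    exact Real.rpow_le_rpow (Nat.cast_nonneg _) hm2 hε'0.le
  -- the rest
  set S' : Fin r → Finset ℕ := fun i => if i = i0 then {1} else Ico (C i) (2 * C i) with hS'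
  have hS'1 : ∀ i, ∀ a ∈ S' i, 1 ≤ a := by
    intro i a ha
    rw [hS'] at ha
    simp only at ha
    split_ifs at ha with h
    · rw [Finset.mem_singleton] at ha; omega
    · rw [Finset.mem_Ico] at ha
      have := hC i
      omega
  set R := Fintype.piFinset S' with hR
  -- size of the values on the rest
  have hCi0 : (1 : ℝ) ≤ C i0 := by exact_mod_cast hC i0
  have hbig : T ≤ (C i0 : ℝ) ^ ((i0 : ℕ) + 1) :=
    hTC.trans (pow_le_pow_right₀ hCi0 (by omega))
  have hvalR : ∀ c ∈ R, 1 ≤ val c ∧ ((val c : ℕ) : ℝ) ≤ 2 ^ (s + 4) * T := by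
    intro c hc
    have hc1 : ∀ i, c i ∈ S' i := fun i => (Fintype.mem_piFinset.1 hc) i
    refine ⟨Nat.one_le_iff_ne_zero.2 (Finset.prod_ne_zero_iff.2 fun i _ => ?_), ?_⟩
    · have := hS'1 i _ (hc1 i)
      exact pow_ne_zero _ (by omega)
    · have h1 : val c * C i0 ^ ((i0 : ℕ) + 1) ≤ 2 ^ s * val C := by
        have e1 : val c * C i0 ^ ((i0 : ℕ) + 1) =
            ∏ i : Fin r, (c i ^ ((i : ℕ) + 1) * (if i = i0 then C i ^ ((i : ℕ) + 1) else 1)) := by
          rw [Finset.prod_mul_distrib, Finset.prod_ite_eq' Finset.univ i0]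
          simp [val]
        have e2 : 2 ^ s * val C = ∏ i : Fin r, (2 ^ ((i : ℕ) + 1) * C i ^ ((i : ℕ) + 1)) := by
          rw [Finset.prod_mul_distrib, Finset.prod_pow_eq_pow_sum]
          rfl
        rw [e1, e2]
        refine Finset.prod_le_prod' fun i _ => ?_
        have h2 := hc1 i
        rw [hS'] at h2
        simp only at h2
        split_ifs with h
        · rw [if_pos h, Finset.mem_singleton] at h2
          rw [h2, one_pow, one_mul]
          exact Nat.le_mul_of_pos_left _ (by positivity)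
        · rw [if_neg h, Finset.mem_Ico] at h2
          rw [mul_one, ← mul_pow]
          exact Nat.pow_le_pow_left (by omega) _
      have h3 : ((val c : ℕ) : ℝ) * (C i0 : ℝ) ^ ((i0 : ℕ) + 1) ≤ 2 ^ s * ((val C : ℕ) : ℝ) := by exact_mod_cast h1
      have h4 : ((val c : ℕ) : ℝ) * T ≤ 2 ^ s * (2 * T ^ 2) := by
        calc ((val c : ℕ) : ℝ) * T ≤ ((val c : ℕ) : ℝ) * (C i0 : ℝ) ^ ((i0 : ℕ) + 1) :=
              mul_le_mul_of_nonneg_left hbig (Nat.cast_nonneg _)
          _ ≤ 2 ^ s * ((val C : ℕ) : ℝ) := h3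
          _ ≤ 2 ^ s * (2 * T ^ 2) := mul_le_mul_of_nonneg_left hval (by positivity)
      have h5 : ((val c : ℕ) : ℝ) ≤ 2 ^ s * (2 * T) := by
        have : ((val c : ℕ) : ℝ) * T ≤ (2 ^ s * (2 * T)) * T := by
          calc ((val c : ℕ) : ℝ) * T ≤ 2 ^ s * (2 * T ^ 2) := h4
            _ = (2 ^ s * (2 * T)) * T := by ring
        exact le_of_mul_le_mul_right this hT0
      calc ((val c : ℕ) : ℝ) ≤ 2 ^ s * (2 * T) := h5
        _ ≤ 2 ^ s * (16 * T) := mul_le_mul_of_nonneg_left (by linarith) (by positivity)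
        _ = 2 ^ (s + 4) * T := by rw [pow_add]; norm_num; ring
  set M : ℕ := ⌊2 ^ (s + 4) * T⌋₊ with hM
  have hMr : (M : ℝ) ≤ 2 ^ (s + 4) * T := Nat.floor_le (by positivity)
  have hvalM : ∀ c ∈ R, 1 ≤ val c ∧ val c ≤ M := fun c hc =>
    ⟨(hvalR c hc).1, Nat.le_floor (hvalR c hc).2⟩
  have hfib : ∀ m : ℕ, (R.filter (fun c => val c = m)).card ≤ D ^ r := by
    intro m
    rcases Finset.eq_empty_or_nonempty (R.filter (fun c => val c = m)) with he | ⟨q, hq⟩
    · rw [he]; simp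
    rw [Finset.mem_filter] at hq
    have hm := hvalR q hq.1
    rw [hq.2] at hm
    have hsub : R.filter (fun c => val c = m) ⊆ Fintype.piFinset (fun _ : Fin r => m.divisors) := by
      intro c hc
      rw [Finset.mem_filter] at hc
      rw [Fintype.mem_piFinset]
      intro i
      rw [Nat.mem_divisors]
      refine ⟨?_, by omega⟩
      rw [← hc.2]
      exact (dvd_pow_self (c i) (by omega : (i : ℕ) + 1 ≠ 0)).trans
        (Finset.dvd_prod_of_mem (fun i : Fin r => c i ^ ((i : ℕ) + 1)) (Finset.mem_univ i))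
    refine (Finset.card_le_card hsub).trans ?_
    rw [Fintype.card_piFinset]
    simp only [Finset.prod_const, Finset.card_univ, Fintype.card_fin]
    exact Nat.pow_le_pow_left (hDdiv m hm.1 hm.2) r
  -- moments
  have hM1 : 1 + 3 * (M : ℝ) / T ≤ 1 + 3 * 2 ^ (s + 4) := by
    have : 3 * (M : ℝ) / T ≤ 3 * 2 ^ (s + 4) := by
      rw [div_le_iff₀ hT0]; linarith
    linarith
  have hmomF : ∫ t : ℝ, Real.exp (-(t / T) ^ 2) * ‖GP R val 1 t‖ ^ (2 * 1) ≤
      T * (R.card * ((D : ℝ) ^ (r + 1) * C2)) ^ 1 := by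
    have h1 := hmom 1 (Fin r → ℕ) R val 1 T M (D ^ r) D hT le_rfl hvalM hfib
      (fun m hm1 hm2 => hDdiv m hm1 (by
        rw [pow_one] at hm2
        exact le_trans (by exact_mod_cast hm2) hMr))
    refine h1.trans ?_
    rw [pow_one, pow_one, pow_one, pow_one]
    have e3 : Cm * (1 + 3 * (M : ℝ) / T) ≤ C2 :=
      (mul_le_mul_of_nonneg_left hM1 hCm.le).trans (le_max_right _ _)
    calc Cm * T * ((R.card : ℝ) * (((D ^ r : ℕ) : ℝ) * (D : ℝ)) * (1 + 3 * (M : ℝ) / T))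
        = T * ((R.card : ℝ) * (D : ℝ) ^ (r + 1)) * (Cm * (1 + 3 * (M : ℝ) / T)) := by push_cast; ring
      _ ≤ T * ((R.card : ℝ) * (D : ℝ) ^ (r + 1)) * C2 := mul_le_mul_of_nonneg_left e3 (by positivity)
      _ = T * (R.card * ((D : ℝ) ^ (r + 1) * C2)) := by ring
  have hC0T : (C i0 : ℝ) ≤ 2 * T := by
    have h1 : C i0 ^ ((i0 : ℕ) + 1) ≤ val C := by
      refine Nat.le_of_dvd ?_ (Finset.dvd_prod_of_mem (fun i : Fin r => C i ^ ((i : ℕ) + 1)) (Finset.mem_univ i0))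
      exact Nat.pos_of_ne_zero (Finset.prod_ne_zero_iff.2 fun i _ => pow_ne_zero _ (by have := hC i; omega))
    have h2 : (C i0 : ℝ) ^ 2 ≤ 2 * T ^ 2 := by
      calc (C i0 : ℝ) ^ 2 ≤ (C i0 : ℝ) ^ ((i0 : ℕ) + 1) := pow_le_pow_right₀ hCi0 (by omega)
        _ ≤ ((val C : ℕ) : ℝ) := by exact_mod_cast h1
        _ ≤ 2 * T ^ 2 := hval
    have h3 : (C i0 : ℝ) ^ 2 ≤ (2 * T) ^ 2 := by nlinarith
    exact le_of_sq_le_sq h3 (by positivity)
  have hmomT : ∫ t : ℝ, Real.exp (-(t / T) ^ 2) *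
      ‖GP (Ico (C i0) (2 * C i0)) id (((i0 : ℕ) : ℝ) + 1) t‖ ^ (2 * 1) ≤ T * (C i0 * (D * C2)) ^ 1 := by
    have h1 := hmom 1 ℕ (Ico (C i0) (2 * C i0)) id (((i0 : ℕ) : ℝ) + 1) T (2 * C i0) 1 D hT
      (by have : (0 : ℝ) ≤ ((i0 : ℕ) : ℝ) := Nat.cast_nonneg _
          linarith) ?_ ?_ ?_
    · refine h1.trans ?_
      have hc : (Ico (C i0) (2 * C i0)).card = C i0 := by rw [Nat.card_Ico]; omega
      rw [hc, pow_one, pow_one, pow_one, pow_one]
      have e2 : 1 + 3 * (((2 * C i0 : ℕ) : ℝ)) / T ≤ 1 + 3 * 2 ^ (s + 4) := by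
        have : 3 * (((2 * C i0 : ℕ) : ℝ)) / T ≤ 3 * 2 ^ (s + 4) := by
          rw [div_le_iff₀ hT0]
          push_cast
          have h16 : (16 : ℝ) ≤ 2 ^ (s + 4) := by
            rw [pow_add]
            have : (1 : ℝ) ≤ 2 ^ s := one_le_pow₀ (by norm_num)
            norm_num
            linarith
          nlinarith
        linarith
      have e3 : Cm * (1 + 3 * (((2 * C i0 : ℕ) : ℝ)) / T) ≤ C2 :=
        (mul_le_mul_of_nonneg_left e2 hCm.le).trans (le_max_right _ _)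
      calc Cm * T * ((C i0 : ℝ) * (((1 : ℕ) : ℝ) * (D : ℝ)) * (1 + 3 * (((2 * C i0 : ℕ) : ℝ)) / T))
          = T * ((C i0 : ℝ) * (D : ℝ)) * (Cm * (1 + 3 * (((2 * C i0 : ℕ) : ℝ)) / T)) := by push_cast; ring
        _ ≤ T * ((C i0 : ℝ) * (D : ℝ)) * C2 := mul_le_mul_of_nonneg_left e3 (by positivity)
        _ = T * (C i0 * (D * C2)) := by ring
    · intro j hj
      rw [Finset.mem_Ico] at hj
      have := hC i0
      exact ⟨by simp only [id]; omega, by simp only [id]; omega⟩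
    · intro m'
      refine Finset.card_le_one.2 ?_
      intro a ha b hb
      rw [Finset.mem_filter] at ha hb
      simp only [id] at ha hb
      rw [ha.2, hb.2]
    · intro m' hm1 hm2
      refine hDdiv m' hm1 ?_
      rw [pow_one] at hm2
      have h6 : (m' : ℝ) ≤ 2 * C i0 := by exact_mod_cast hm2
      have h16 : (16 : ℝ) ≤ 2 ^ (s + 4) := by
        rw [pow_add]
        have : (1 : ℝ) ≤ 2 ^ s := one_le_pow₀ (by norm_num)
        norm_num
        linarith
      nlinarith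
  -- Hölder
  set G : Bool → ℝ → ℂ := fun b t => bif b then GP (Ico (C i0) (2 * C i0)) id (((i0 : ℕ) : ℝ) + 1) t
    else GP R val 1 t with hG
  set B : Bool → ℝ := fun b => bif b then C i0 * (D * C2) else R.card * ((D : ℝ) ^ (r + 1) * C2) with hB
  have hH := holder (Finset.univ : Finset Bool) (fun _ => 1) (fun _ _ => le_rfl)
    (by rw [Fintype.sum_bool]; norm_num) G
    (fun b _ => by cases b <;> exact GP_continuous _ _ _)
    (fun b => bif b then ((Ico (C i0) (2 * C i0)).card : ℝ) else (R.card : ℝ))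
    (fun b _ t => by cases b <;> exact GP_norm_le _ _ _ _) B
    (fun b _ => by cases b <;> (rw [hB]; simp only [cond_true, cond_false]; positivity)) T hT
    (fun b _ => by cases b; exacts [hmomF, hmomT])
  rw [Fintype.prod_bool] at hH
  have hdet := detect (box C) val 1 y0 T hT
  simp only [one_mul] at hdet
  refine hdet.trans ?_
  have e4 : ∀ t : ℝ, ‖GP (box C) val 1 t‖ = ∏ b : Bool, ‖G b t‖ := by
    intro t
    rw [Fintype.prod_bool]
    simp only [hG, cond_true, cond_false]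
    rw [hR, GP_prod S' hS'1, box, GP_prod _ (fun i a ha => by rw [Finset.mem_Ico] at ha; have := hC i; omega),
      norm_prod, norm_prod]
    have e5 : ∀ i : Fin r, ‖GP (Ico (C i) (2 * C i)) id (((i : ℕ) : ℝ) + 1) t‖ =
        (if i = i0 then ‖GP (Ico (C i) (2 * C i)) id (((i : ℕ) : ℝ) + 1) t‖ else 1) *
          ‖GP (S' i) id (((i : ℕ) : ℝ) + 1) t‖ := by
      intro i
      split_ifs with h
      · have : ‖GP (S' i) id (((i : ℕ) : ℝ) + 1) t‖ = 1 := by
          rw [hS']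
          simp only [if_pos h]
          unfold GP
          simp
        rw [this, mul_one]
      · rw [one_mul, hS']
        simp only [if_neg h]
    rw [Finset.prod_congr rfl (fun i _ => e5 i), Finset.prod_mul_distrib, Finset.prod_ite_eq' Finset.univ i0]
    simp
  have hRcard : (C i0 : ℝ) * R.card = ∏ i, (C i : ℝ) := by
    have e6 : R.card = ∏ i : Fin r, (if i = i0 then 1 else C i) := by
      rw [hR, Fintype.card_piFinset]
      refine Finset.prod_congr rfl fun i _ => ?_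
      rw [hS']
      simp only
      split_ifs with h
      · simp
      · rw [Nat.card_Ico]; omega
    have e7 : C i0 * R.card = ∏ i : Fin r, C i := by
      rw [e6]
      have e8 : ∀ i : Fin r, C i = (if i = i0 then C i else 1) * (if i = i0 then 1 else C i) := by
        intro i; split_ifs <;> simp
      conv_rhs => rw [Finset.prod_congr rfl (fun i _ => e8 i)]
      rw [Finset.prod_mul_distrib, Finset.prod_ite_eq' Finset.univ i0]
      simp
    exact_mod_cast e7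
  have e9 : Real.sqrt (B true) * Real.sqrt (B false) ≤ (Q ^ (r + 2) * C2 ^ 2 * T ^ ε) * ∏ i, Real.sqrt (C i) := by
    have e10 : B true * B false = (∏ i, (C i : ℝ)) * ((D : ℝ) ^ (r + 2) * C2 ^ 2) := by
      rw [← hRcard, hB]
      simp only [cond_true, cond_false]
      ring
    rw [← Real.sqrt_mul (by rw [hB]; simp only [cond_true]; positivity), e10,
      Real.sqrt_mul (Finset.prod_nonneg fun i _ => Nat.cast_nonneg _)]
    have e11 : Real.sqrt (∏ i, (C i : ℝ)) = ∏ i, Real.sqrt (C i) := by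
      rw [Real.sqrt_eq_rpow, ← Real.finsetProd_rpow _ _ (fun i _ => Nat.cast_nonneg _)]
      exact Finset.prod_congr rfl fun i _ => (Real.sqrt_eq_rpow _).symm
    rw [e11, mul_comm]
    refine mul_le_mul_of_nonneg_right ?_ (Finset.prod_nonneg fun i _ => Real.sqrt_nonneg _)
    have e12 : (D : ℝ) ^ (r + 2) * C2 ^ 2 ≤ Q ^ (r + 2) * C2 ^ 2 * T ^ ε := by
      have e13 : (D : ℝ) ^ (r + 2) ≤ (Q * T ^ ε') ^ (r + 2) := pow_le_pow_left₀ (Nat.cast_nonneg _) hDQ _
      have e14 : (Q * T ^ ε') ^ (r + 2) ≤ Q ^ (r + 2) * T ^ ε := by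
        rw [mul_pow, ← Real.rpow_natCast (T ^ ε'), ← Real.rpow_mul hT0.le]
        refine mul_le_mul_of_nonneg_left ?_ (by positivity)
        refine Real.rpow_le_rpow_of_exponent_le hT ?_
        rw [hε']
        push_cast
        have : ((r : ℝ) + 2) ≠ 0 := by positivity
        rw [div_mul_cancel₀ _ this]
      calc (D : ℝ) ^ (r + 2) * C2 ^ 2 ≤ (Q ^ (r + 2) * T ^ ε) * C2 ^ 2 :=
            mul_le_mul_of_nonneg_right (e13.trans e14) (by positivity)
        _ = Q ^ (r + 2) * C2 ^ 2 * T ^ ε := by ring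
    refine (Real.sqrt_le_sqrt e12).trans ?_
    have h1 : 1 ≤ Q ^ (r + 2) * C2 ^ 2 * T ^ ε := by
      have a1 : 1 ≤ Q ^ (r + 2) := one_le_pow₀ hQ1
      have a2 : 1 ≤ C2 ^ 2 := one_le_pow₀ hC21
      have a3 : 1 ≤ T ^ ε := Real.one_le_rpow hT hε.le
      have a4 : 1 ≤ Q ^ (r + 2) * C2 ^ 2 := by nlinarith
      nlinarith
    rw [Real.sqrt_le_left (by linarith)]
    nlinarith
  simp_rw [e4]
  calc 1 / T * ∫ t : ℝ, Real.exp (-(t / T) ^ 2) * ∏ b : Bool, ‖G b t‖
      ≤ 1 / T * (2 * T * (Real.sqrt (B true) * Real.sqrt (B false))) :=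
        mul_le_mul_of_nonneg_left hH (by positivity)
    _ = 2 * (Real.sqrt (B true) * Real.sqrt (B false)) := by field_simp
    _ ≤ 2 * ((Q ^ (r + 2) * C2 ^ 2 * T ^ ε) * ∏ i, Real.sqrt (C i)) := by linarith
    _ = 2 * (Q ^ (r + 2) * C2 ^ 2) * T ^ ε * ∏ i, Real.sqrt (C i) := by ring

end Pool.Agent.Helper18.KP
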