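import Pool.Agent.Helper18.KP.Box2

/-! Project KS, lemma POW: points in a dyadic box, all cases. -/

set_option autoImplicit false
open MeasureTheory Filter Topology Finset
open scoped Classical

namespace Pool.Agent.Helper18.KP

open Pool.Agent.Helper60.KS Pool.Agent.Helper65.KC

theorem core0 (m : ℕ) (T : ℝ) (C : Fin (m + 1) → ℕ) (hT : 2 ≤ T)
    (hC : ∀ i, 1 ≤ C i) (hC0 : T < C 0) (hval : ((val C : ℕ) : ℝ) ≤ 2 * T ^ 2) (y0 : ℝ) :
    (((box C).filter (fun c => |Real.log (val c) - y0| ≤ 1 / T)).card : ℝ) ≤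
      26 * ∏ i, Real.sqrt (C i) := by
  have hT0 : 0 < T := by linarith
  set X : ℕ := ∏ i : Fin m, C i.succ with hX
  set E : ℕ := ⌊13 * (C 0 : ℝ) / T⌋₊ with hE
  have hEr : (E : ℝ) ≤ 13 * (C 0 : ℝ) / T := Nat.floor_le (by positivity)
  -- counting by fibres
  have hcount : ((box C).filter (fun c => |Real.log (val c) - y0| ≤ 1 / T)).card ≤
      E * (Fintype.piFinset (fun i : Fin m => Ico (C i.succ) (2 * C i.succ))).card := by
    refine Finset.card_le_mul_card_image_of_maps_to (f := fun c : Fin (m + 1) → ℕ => fun i : Fin m => c i.succ) ?_ E ?_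
    · intro c hc
      rw [Finset.mem_filter, box, Fintype.mem_piFinset] at hc
      rw [Fintype.mem_piFinset]
      intro i
      exact hc.1 i.succ
    · intro d _
      set F := ((box C).filter (fun c => |Real.log (val c) - y0| ≤ 1 / T)).filter
        (fun c : Fin (m + 1) → ℕ => (fun i : Fin m => c i.succ) = d) with hF
      rcases Finset.eq_empty_or_nonempty F with he | ⟨q, hq⟩
      · rw [he]; simp
      have hq' := hq
      rw [hF, Finset.mem_filter, Finset.mem_filter, box, Fintype.mem_piFinset] at hq'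
      have hq0 := hq'.1.1 0
      rw [Finset.mem_Ico] at hq0
      have hT2 : 1 ≤ T / 2 := by linarith
      have h1 := card_log_near (2 * C 0) (q 0) (T / 2) hT2 (by have := hC 0; omega)
      have h2 : F.card ≤ ((Icc 1 (2 * C 0)).filter (fun k : ℕ => |Real.log (q 0) - Real.log k| ≤ 1 / (T / 2))).card := by
        refine Finset.card_le_card_of_injOn (fun c => c 0) ?_ ?_
        · intro c hc
          have hc' := hc
          rw [Finset.mem_coe, hF, Finset.mem_filter, Finset.mem_filter, box, Fintype.mem_piFinset] at hc'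
          have hc0 := hc'.1.1 0
          rw [Finset.mem_Ico] at hc0
          rw [Finset.mem_coe, Finset.mem_filter, Finset.mem_Icc]
          have := hC 0
          refine ⟨⟨by show 1 ≤ c 0; omega, by show c 0 ≤ 2 * C 0; omega⟩, ?_⟩
          have hc1 : ∀ i, 1 ≤ c i := fun i => by
            have h3 := hc'.1.1 i
            rw [Finset.mem_Ico] at h3
            have := hC i
            omega
          have hq1 : ∀ i, 1 ≤ q i := fun i => by
            have h3 := hq'.1.1 i
            rw [Finset.mem_Ico] at h3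
            have := hC i
            omega
          have h4 := hc'.1.2
          have h5 := hq'.1.2
          rw [log_val c hc1, Fin.sum_univ_succ] at h4
          rw [log_val q hq1, Fin.sum_univ_succ] at h5
          have h6 : ∀ i : Fin m, c i.succ = q i.succ := fun i => by
            have e1 := congrFun hc'.2 i
            have e2 := congrFun hq'.2 i
            rw [e1, e2]
          have h7 : ∑ i : Fin m, ((((i.succ : Fin (m + 1)) : ℕ) : ℝ) + 1) * Real.log (c i.succ) =
              ∑ i : Fin m, ((((i.succ : Fin (m + 1)) : ℕ) : ℝ) + 1) * Real.log (q i.succ) :=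
            Finset.sum_congr rfl fun i _ => by rw [h6 i]
          rw [h7] at h4
          simp only [Fin.val_zero, Nat.cast_zero, zero_add, one_mul] at h4 h5
          rw [abs_le] at h4 h5
          have h8 : 1 / (T / 2) = 1 / T + 1 / T := by field_simp; norm_num
          show |Real.log (q 0) - Real.log (c 0)| ≤ 1 / (T / 2)
          rw [h8, abs_le]
          constructor <;> linarith [h4.1, h4.2, h5.1, h5.2]
        · intro c hc c' hc' hcc
          have a1 := hc
          have a2 := hc'
          rw [Finset.mem_coe, hF, Finset.mem_filter] at a1 a2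
          funext i
          rcases Fin.eq_zero_or_eq_succ i with rfl | ⟨j, rfl⟩
          · exact hcc
          · have e1 := congrFun a1.2 j
            have e2 := congrFun a2.2 j
            rw [e1, e2]
      refine h2.trans (Nat.le_floor ?_)
      refine h1.trans ?_
      have h9 : (q 0 : ℝ) ≤ 2 * C 0 := by exact_mod_cast hq0.2.le
      rw [div_div_eq_mul_div, ← sub_nonneg]
      have h10 : 13 * (C 0 : ℝ) / T - (1 + 3 * (q 0 : ℝ) * 2 / T) = (13 * C 0 - T - 6 * q 0) / T := by
        field_simp; ring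
      rw [h10]
      refine div_nonneg ?_ hT0.le
      linarith
  have hcardX : (Fintype.piFinset (fun i : Fin m => Ico (C i.succ) (2 * C i.succ))).card = X := by
    rw [Fintype.card_piFinset, hX]
    refine Finset.prod_congr rfl fun i _ => ?_
    rw [Nat.card_Ico]; omega
  rw [hcardX] at hcount
  have h1 : (((box C).filter (fun c => |Real.log (val c) - y0| ≤ 1 / T)).card : ℝ) ≤ 13 * (C 0 : ℝ) / T * X := by
    calc (((box C).filter (fun c => |Real.log (val c) - y0| ≤ 1 / T)).card : ℝ) ≤ (E : ℝ) * X := by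
          exact_mod_cast hcount
      _ ≤ _ := mul_le_mul_of_nonneg_right hEr (Nat.cast_nonneg _)
  -- X² C0 ≤ val C
  have h2 : X ^ 2 * C 0 ≤ val C := by
    unfold val
    rw [Fin.prod_univ_succ, hX, ← Finset.prod_pow, mul_comm]
    simp only [Fin.val_zero, zero_add, pow_one]
    refine Nat.mul_le_mul_left _ (Finset.prod_le_prod' fun i _ => ?_)
    refine Nat.pow_le_pow_right (hC _) ?_
    rw [Fin.val_succ]
    omega
  have h3 : (X : ℝ) ^ 2 * C 0 ≤ 2 * T ^ 2 := le_trans (by exact_mod_cast h2) hval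
  have hC0' : (C 0 : ℝ) ≤ 2 * T ^ 2 := by
    have : C 0 ≤ X ^ 2 * C 0 := by
      have hX1 : 1 ≤ X := by
        rw [hX]
        exact Nat.one_le_iff_ne_zero.2 (Finset.prod_ne_zero_iff.2 fun i _ => by have := hC i.succ; omega)
      exact Nat.le_mul_of_pos_left _ (by positivity)
    have h4 : (C 0 : ℝ) ≤ (X : ℝ) ^ 2 * C 0 := by exact_mod_cast this
    linarith
  have h5 : ((X : ℝ) * C 0) ≤ 2 * T ^ 2 := by
    have : ((X : ℝ) * C 0) ^ 2 ≤ (2 * T ^ 2) ^ 2 := by
      have a0 : (0 : ℝ) ≤ C 0 := Nat.cast_nonneg _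
      calc ((X : ℝ) * C 0) ^ 2 = ((X : ℝ) ^ 2 * C 0) * C 0 := by ring
        _ ≤ (2 * T ^ 2) * (2 * T ^ 2) := mul_le_mul h3 hC0' a0 (by positivity)
        _ = (2 * T ^ 2) ^ 2 := by ring
    exact le_of_sq_le_sq this (by positivity)
  have h6 : ∏ i, Real.sqrt (C i) = Real.sqrt ((X : ℝ) * C 0) := by
    rw [Fin.prod_univ_succ, Real.sqrt_mul (Nat.cast_nonneg _), hX]
    push_cast
    rw [mul_comm]
    congr 1
    rw [Real.sqrt_eq_rpow, ← Real.finsetProd_rpow _ _ (fun i _ => Nat.cast_nonneg _)]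
    exact Finset.prod_congr rfl fun i _ => (Real.sqrt_eq_rpow _)
  rw [h6]
  refine h1.trans ?_
  set Z := (X : ℝ) * C 0 with hZ
  have hZ0 : 0 ≤ Z := by positivity
  have h7 : Real.sqrt Z ≤ 2 * T := by
    rw [Real.sqrt_le_left (by positivity)]
    nlinarith
  have h8 : 13 * (C 0 : ℝ) / T * X = 13 * (Real.sqrt Z * Real.sqrt Z) / T := by
    rw [Real.mul_self_sqrt hZ0, hZ]; ring
  rw [h8, div_le_iff₀ hT0]
  have := Real.sqrt_nonneg Z
  nlinarith

theorem box_bound (m : ℕ) (ε : ℝ) (hε : 0 < ε) : ∃ A : ℝ, 0 < A ∧ ∀ (T : ℝ) (C : Fin (m + 2) → ℕ),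
    2 ^ 18 ≤ T → (∀ i, 1 ≤ C i) → ((val C : ℕ) : ℝ) ≤ 2 * T ^ 2 → ∀ y0 : ℝ,
    (((box C).filter (fun c => |Real.log (val c) - y0| ≤ 1 / T)).card : ℝ) ≤
      A * T ^ ε * ∏ i, Real.sqrt (C i) := by
  set K : ℕ := 24 * (m + 2) with hK
  have hK1 : 1 ≤ K := by omega
  obtain ⟨A1, hA1, h1⟩ := core (m + 2) K ε hε
  obtain ⟨A2, hA2, h2⟩ := core2 (m + 2) ε hε
  refine ⟨A1 + A2 + 26, by positivity, ?_⟩
  intro T C hT hC hval y0
  have hT1 : 1 < T := by linarith
  have hT0 : 0 < T := by linarith
  have hTε : 1 ≤ T ^ ε := Real.one_le_rpow hT1.le hε.le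
  have hP : 0 ≤ ∏ i, Real.sqrt (C i) := Finset.prod_nonneg fun i _ => Real.sqrt_nonneg _
  have hTP : 0 ≤ T ^ ε * ∏ i, Real.sqrt (C i) := by positivity
  rcases lt_or_ge T (C 0 : ℝ) with hc0 | hc0
  · refine (core0 (m + 1) T C (by linarith) hC hc0 hval y0).trans ?_
    nlinarith
  by_cases hbig : ∃ i : Fin (m + 1), T < (C i.succ : ℝ) ^ 2
  · obtain ⟨i, hi⟩ := hbig
    refine (h2 T C hT1.le hC i.succ (by rw [Fin.val_succ]; omega) hi.le hval y0).trans ?_
    nlinarith
  push Not at hbig
  have hlogT : 0 < Real.log T := Real.log_pos hT1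
  set γ : Fin (m + 2) → ℝ := fun i => Real.log (C i) / Real.log T with hγ
  have hγ0 : ∀ i, 0 ≤ γ i := fun i => div_nonneg (Real.log_nonneg (by exact_mod_cast hC i)) hlogT.le
  have hγ1 : γ 0 ≤ 1 := by
    rw [hγ]; simp only
    rw [div_le_one hlogT]
    exact Real.log_le_log (by exact_mod_cast hC 0) hc0
  have hγ2 : ∀ i : Fin (m + 1), γ i.succ ≤ 1 / 2 := by
    intro i
    rw [hγ]; simp only
    rw [div_le_iff₀ hlogT]
    have hCi : (0 : ℝ) < C i.succ := by exact_mod_cast hC i.succ
    have := Real.log_le_log (by positivity) (hbig i)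
    rw [Real.log_pow] at this
    push_cast at this
    linarith
  set η : ℝ := Real.log 2 / Real.log T with hη
  have hlog2 : 0 < Real.log 2 := Real.log_pos (by norm_num)
  have hη0 : 0 ≤ η := by positivity
  have hη1 : η ≤ 1 / 18 := by
    rw [hη, div_le_iff₀ hlogT]
    have := Real.log_le_log (by positivity) hT
    rw [Real.log_pow] at this
    push_cast at this
    linarith
  have hsum : ∑ i : Fin (m + 2), ((i : ℕ) + 1 : ℝ) * γ i ≤ 2 + η := by
    have e1 : ∑ i : Fin (m + 2), ((i : ℕ) + 1 : ℝ) * γ i = Real.log (val C) / Real.log T := by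
      rw [log_val C hC, Finset.sum_div]
      refine Finset.sum_congr rfl fun i _ => ?_
      rw [hγ]; simp only
      ring
    rw [e1, div_le_iff₀ hlogT, hη]
    have hv : (0 : ℝ) < ((val C : ℕ) : ℝ) := by
      have : 0 < val C := Nat.pos_of_ne_zero (Finset.prod_ne_zero_iff.2 fun i _ =>
        pow_ne_zero _ (by have := hC i; omega))
      exact_mod_cast this
    have := Real.log_le_log hv hval
    rw [Real.log_mul (by norm_num) (by positivity), Real.log_pow] at this
    push_cast at this
    refine this.trans (le_of_eq ?_)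
    field_simp
    ring
  have hnum := sum_kap hK1 γ η hη0 hγ0 hγ1 hγ2 hsum (by
    have : ((m : ℝ) + 2) / K = 1 / 24 := by
      rw [hK]; push_cast
      have : ((m : ℝ) + 2) ≠ 0 := by positivity
      field_simp
    rw [this]
    linarith)
  have hκ : ∀ i, 1 ≤ kap K (γ i) ∧ kap K (γ i) ≤ K := by
    intro i
    refine ⟨kap_pos hK1 ?_, kap_le K _⟩
    rcases Fin.eq_zero_or_eq_succ i with rfl | ⟨j, rfl⟩
    · exact hγ1
    · linarith [hγ2 j]
  have hpow : ∀ i, (C i : ℝ) ^ (kap K (γ i)) ≤ T := by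
    intro i
    have hCi : (0 : ℝ) < C i := by exact_mod_cast hC i
    rw [← Real.log_le_log_iff (by positivity) hT0, Real.log_pow]
    have h3 := kap_mul K (c := γ i)
    have h4 : Real.log (C i) = γ i * Real.log T := by
      rw [hγ]; simp only
      field_simp
    rw [h4, ← mul_assoc]
    nlinarith
  have hsum2 : ∑ i, (1 : ℝ) / (2 * kap K (γ i)) ≤ 1 := by
    have : ∑ i, (1 : ℝ) / (2 * kap K (γ i)) = (∑ i, (1 : ℝ) / kap K (γ i)) / 2 := by
      rw [Finset.sum_div]
      refine Finset.sum_congr rfl fun i _ => ?_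
      rw [div_div, mul_comm]
    rw [this]
    linarith
  refine (h1 T C (fun i => kap K (γ i)) hT1.le hC hκ hpow hsum2 y0).trans ?_
  nlinarith

end Pool.Agent.Helper18.KP
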