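import Pool.Agent.Helper18.KP.Mom

/-! Project KS, lemma POW: Hölder and detection. -/

set_option autoImplicit false
open MeasureTheory Filter Topology Finset
open scoped Classical ENNReal

namespace Pool.Agent.Helper18.KP

open Pool.Agent.Helper60.KS Pool.Agent.Helper65.KC

theorem GP_continuous {ι : Type} (S : Finset ι) (n : ι → ℕ) (v : ℝ) : Continuous (fun t : ℝ => GP S n v t) := by
  unfold GP
  fun_prop

theorem GP_norm_le {ι : Type} (S : Finset ι) (n : ι → ℕ) (v t : ℝ) : ‖GP S n v t‖ ≤ S.card := by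
  unfold GP
  refine (norm_sum_le _ _).trans ?_
  have : ∀ j ∈ S, ‖Complex.exp (Complex.I * (((v * Real.log (n j)) * t : ℝ) : ℂ))‖ ≤ 1 := by
    intro j _
    rw [mul_comm, Complex.norm_exp_ofReal_mul_I]
  refine (Finset.sum_le_sum this).trans ?_
  simp

theorem gauss_int (T : ℝ) (hT : 0 < T) : Integrable (fun t : ℝ => Real.exp (-(t / T) ^ 2)) ∧
    ∫ t : ℝ, Real.exp (-(t / T) ^ 2) = Real.sqrt Real.pi * T := by
  have e : (fun t : ℝ => Real.exp (-(t / T) ^ 2)) = fun t : ℝ => Real.exp (-(1 / T ^ 2) * t ^ 2) := by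
    funext t
    congr 1
    ring
  rw [e]
  refine ⟨integrable_exp_neg_mul_sq (by positivity), ?_⟩
  rw [integral_gaussian, div_div_eq_mul_div, div_one, Real.sqrt_mul Real.pi_pos.le, Real.sqrt_sq hT.le]

/-- weighted integrability of continuous bounded functions -/
theorem weight_integrable (T : ℝ) (hT : 0 < T) (f : ℝ → ℝ) (hf : Continuous f) (B : ℝ) (hB : ∀ t, |f t| ≤ B) :
    Integrable (fun t : ℝ => Real.exp (-(t / T) ^ 2) * f t) := by
  have h := (gauss_int T hT).1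
  exact h.mul_bdd (c := B) hf.aestronglyMeasurable (Filter.Eventually.of_forall fun t => by
    rw [Real.norm_eq_abs]; exact hB t)

/-- Hölder's inequality with even integer exponents and Gaussian weight -/
theorem holder {α : Type} (s : Finset α) (κ : α → ℕ) (hκ : ∀ i ∈ s, 1 ≤ κ i)
    (hs : ∑ i ∈ s, (1 : ℝ) / (2 * κ i) ≤ 1) (G : α → ℝ → ℂ) (hG : ∀ i ∈ s, Continuous (G i))
    (N : α → ℝ) (hN : ∀ i ∈ s, ∀ t, ‖G i t‖ ≤ N i) (B : α → ℝ) (hB0 : ∀ i ∈ s, 0 ≤ B i)
    (T : ℝ) (hT : 1 ≤ T)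
    (hB : ∀ i ∈ s, ∫ t : ℝ, Real.exp (-(t / T) ^ 2) * ‖G i t‖ ^ (2 * κ i) ≤ T * B i ^ (κ i)) :
    ∫ t : ℝ, Real.exp (-(t / T) ^ 2) * ∏ i ∈ s, ‖G i t‖ ≤ 2 * T * ∏ i ∈ s, Real.sqrt (B i) := by
  have hT0 : 0 < T := by linarith
  set q : ℝ := 1 - ∑ i ∈ s, (1 : ℝ) / (2 * κ i) with hq
  have hq0 : 0 ≤ q := by rw [hq]; linarith
  set p : α → ℝ := fun i => (1 : ℝ) / (2 * κ i) with hp
  have hp0 : ∀ i ∈ s, 0 ≤ p i := fun i _ => by rw [hp]; positivity
  have hpq : q + ∑ i ∈ s, p i = 1 := by rw [hq]; ring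
  have hppos : ∀ i ∈ s, 0 < p i := fun i hi => by
    have : 0 < κ i := hκ i hi
    rw [hp]; positivity
  -- the inequality in ENNReal
  have hmeasg : AEMeasurable (fun t : ℝ => ENNReal.ofReal (Real.exp (-(t / T) ^ 2))) volume := by
    refine Measurable.aemeasurable ?_
    exact ENNReal.measurable_ofReal.comp (Continuous.measurable (by fun_prop))
  have hmeasf : ∀ i ∈ s, AEMeasurable (fun t : ℝ => ENNReal.ofReal (Real.exp (-(t / T) ^ 2) * ‖G i t‖ ^ (2 * κ i)))
      volume := by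
    intro i hi
    refine Measurable.aemeasurable ?_
    refine ENNReal.measurable_ofReal.comp (Continuous.measurable ?_)
    have := hG i hi
    fun_prop
  have key := ENNReal.lintegral_mul_prod_norm_pow_le (μ := (volume : Measure ℝ)) s hmeasg hmeasf q hpq hq0 hp0
  -- the integrand
  have hpt : ∀ t : ℝ, (ENNReal.ofReal (Real.exp (-(t / T) ^ 2))) ^ q * ∏ i ∈ s,
      (ENNReal.ofReal (Real.exp (-(t / T) ^ 2) * ‖G i t‖ ^ (2 * κ i))) ^ (p i) =
      ENNReal.ofReal (Real.exp (-(t / T) ^ 2) * ∏ i ∈ s, ‖G i t‖) := by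
    intro t
    set g := Real.exp (-(t / T) ^ 2) with hg
    have hg0 : 0 < g := Real.exp_pos _
    have h1 : ∀ i ∈ s, (ENNReal.ofReal (g * ‖G i t‖ ^ (2 * κ i))) ^ (p i) =
        ENNReal.ofReal (g ^ (p i) * ‖G i t‖) := by
      intro i hi
      rw [ENNReal.ofReal_rpow_of_nonneg (by positivity) (hp0 i hi)]
      congr 1
      rw [Real.mul_rpow hg0.le (by positivity)]
      congr 1
      have hk : (0 : ℝ) < κ i := by exact_mod_cast hκ i hi
      rw [← Real.rpow_natCast, ← Real.rpow_mul (norm_nonneg _)]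
      have : ((2 * κ i : ℕ) : ℝ) * p i = 1 := by
        rw [hp]; push_cast; field_simp
      rw [this, Real.rpow_one]
    rw [Finset.prod_congr rfl h1, ← ENNReal.ofReal_prod_of_nonneg (fun i _ => by positivity),
      ENNReal.ofReal_rpow_of_nonneg hg0.le hq0, ← ENNReal.ofReal_mul (by positivity)]
    congr 1
    rw [Finset.prod_mul_distrib, ← mul_assoc]
    congr 1
    rw [← Real.rpow_sum_of_pos hg0, ← Real.rpow_add hg0, hpq, Real.rpow_one]
  simp_rw [hpt] at key
  -- left side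
  have hcontP : Continuous (fun t : ℝ => ∏ i ∈ s, ‖G i t‖) :=
    continuous_finsetProd s fun i hi => (hG i hi).norm
  have hboundP : ∀ t, |∏ i ∈ s, ‖G i t‖| ≤ ∏ i ∈ s, N i := by
    intro t
    rw [abs_of_nonneg (Finset.prod_nonneg fun i _ => norm_nonneg _)]
    exact Finset.prod_le_prod (fun i _ => norm_nonneg _) fun i hi => hN i hi t
  have hintL := weight_integrable T hT0 _ hcontP _ hboundP
  have hL : ENNReal.ofReal (∫ t : ℝ, Real.exp (-(t / T) ^ 2) * ∏ i ∈ s, ‖G i t‖) =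
      ∫⁻ t : ℝ, ENNReal.ofReal (Real.exp (-(t / T) ^ 2) * ∏ i ∈ s, ‖G i t‖) :=
    ofReal_integral_eq_lintegral_ofReal hintL (Filter.Eventually.of_forall fun t => by
      have : 0 ≤ ∏ i ∈ s, ‖G i t‖ := Finset.prod_nonneg fun i _ => norm_nonneg _
      positivity)
  rw [← hL] at key
  -- right side
  have hR1 : (∫⁻ t : ℝ, ENNReal.ofReal (Real.exp (-(t / T) ^ 2))) ≤ ENNReal.ofReal (2 * T) := by
    rw [← ofReal_integral_eq_lintegral_ofReal (gauss_int T hT0).1
      (Filter.Eventually.of_forall fun t => (Real.exp_pos _).le), (gauss_int T hT0).2]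
    refine ENNReal.ofReal_le_ofReal (mul_le_mul_of_nonneg_right ?_ hT0.le)
    rw [Real.sqrt_le_left (by norm_num)]
    have := Real.pi_le_four
    linarith
  have hR2 : ∀ i ∈ s, (∫⁻ t : ℝ, ENNReal.ofReal (Real.exp (-(t / T) ^ 2) * ‖G i t‖ ^ (2 * κ i))) ≤
      ENNReal.ofReal (T * B i ^ (κ i)) := by
    intro i hi
    have hb : ∀ t, |‖G i t‖ ^ (2 * κ i)| ≤ N i ^ (2 * κ i) := by
      intro t
      rw [abs_of_nonneg (by positivity)]
      exact pow_le_pow_left₀ (norm_nonneg _) (hN i hi t) _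
    have hc : Continuous (fun t : ℝ => ‖G i t‖ ^ (2 * κ i)) := ((hG i hi).norm).pow _
    rw [← ofReal_integral_eq_lintegral_ofReal (weight_integrable T hT0 _ hc _ hb)
      (Filter.Eventually.of_forall fun t => by positivity)]
    exact ENNReal.ofReal_le_ofReal (hB i hi)
  have key2 := key.trans (mul_le_mul' (ENNReal.rpow_le_rpow hR1 hq0)
    (Finset.prod_le_prod' fun i hi => ENNReal.rpow_le_rpow (hR2 i hi) (hp0 i hi)))
  -- convert back
  have h3 : ∀ i ∈ s, (ENNReal.ofReal (T * B i ^ (κ i))) ^ (p i) =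
      ENNReal.ofReal (T ^ (p i) * Real.sqrt (B i)) := by
    intro i hi
    have hB00 := hB0 i hi
    rw [ENNReal.ofReal_rpow_of_nonneg (by positivity) (hp0 i hi), Real.mul_rpow hT0.le (by positivity)]
    congr 2
    have hk : (0 : ℝ) < κ i := by exact_mod_cast hκ i hi
    rw [← Real.rpow_natCast, ← Real.rpow_mul hB00, Real.sqrt_eq_rpow]
    congr 1
    rw [hp]; field_simp
  rw [Finset.prod_congr rfl h3, ← ENNReal.ofReal_prod_of_nonneg (fun i _ => by positivity),
      ENNReal.ofReal_rpow_of_nonneg (by positivity) hq0, ← ENNReal.ofReal_mul (by positivity)] at key2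
  have key3 := (ENNReal.ofReal_le_ofReal_iff (by positivity)).1 key2
  refine key3.trans ?_
  rw [Finset.prod_mul_distrib, ← Real.rpow_sum_of_pos hT0, Real.mul_rpow (by norm_num) hT0.le, ← mul_assoc]
  refine mul_le_mul_of_nonneg_right ?_ (Finset.prod_nonneg fun i _ => Real.sqrt_nonneg _)
  rw [mul_assoc, ← Real.rpow_add hT0, hpq, Real.rpow_one]
  refine mul_le_mul_of_nonneg_right ?_ hT0.le
  calc (2 : ℝ) ^ q ≤ 2 ^ (1 : ℝ) := Real.rpow_le_rpow_of_exponent_le (by norm_num) (by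
        have : 0 ≤ ∑ i ∈ s, p i := Finset.sum_nonneg hp0
        linarith)
    _ = 2 := Real.rpow_one 2

/-- detection of the points near `y0` -/
theorem detect {ι : Type} (S : Finset ι) (n : ι → ℕ) (v y0 T : ℝ) (hT : 1 ≤ T) :
    ((S.filter (fun j => |v * Real.log (n j) - y0| ≤ 1 / T)).card : ℝ) ≤
      1 / T * ∫ t : ℝ, Real.exp (-(t / T) ^ 2) * ‖GP S n v t‖ := by
  have hT0 : 0 < T := by linarith
  have hint : Integrable (fun t : ℝ => Real.exp (-(t / T) ^ 2) * ‖GP S n v t‖) :=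
    weight_integrable T hT0 _ (GP_continuous S n v).norm S.card (fun t => by
      rw [abs_of_nonneg (norm_nonneg _)]; exact GP_norm_le S n v t)
  -- the twisted integral
  have h1 : ∫ t : ℝ, ∑ j ∈ S, (Complex.exp (Complex.I * ((v * Real.log (n j) - y0 : ℝ) : ℂ) * t) *
      Complex.exp (-(1 / T ^ 2 : ℂ) * (t : ℂ) ^ 2)) =
      ∑ j ∈ S, ((Real.sqrt Real.pi * T * Real.exp (-(T * (v * Real.log (n j) - y0)) ^ 2 / 4) : ℝ) : ℂ) := by
    rw [integral_finsetSum]
    · exact Finset.sum_congr rfl fun j _ => gauss_integral T _ hT0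
    · intro j _
      exact gauss_integrable T _ hT0
  have h2 : ∀ t : ℝ, ‖∑ j ∈ S, (Complex.exp (Complex.I * ((v * Real.log (n j) - y0 : ℝ) : ℂ) * t) *
      Complex.exp (-(1 / T ^ 2 : ℂ) * (t : ℂ) ^ 2))‖ = Real.exp (-(t / T) ^ 2) * ‖GP S n v t‖ := by
    intro t
    have e1 : ∑ j ∈ S, (Complex.exp (Complex.I * ((v * Real.log (n j) - y0 : ℝ) : ℂ) * t) *
      Complex.exp (-(1 / T ^ 2 : ℂ) * (t : ℂ) ^ 2)) =
      (Complex.exp (((-y0 * t : ℝ) : ℂ) * Complex.I) * ((Real.exp (-(t / T) ^ 2) : ℝ) : ℂ)) * GP S n v t := by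
      unfold GP
      rw [Finset.mul_sum]
      refine Finset.sum_congr rfl fun j _ => ?_
      rw [Complex.ofReal_exp, ← Complex.exp_add, ← Complex.exp_add, ← Complex.exp_add]
      congr 1
      push_cast
      ring
    rw [e1, norm_mul, norm_mul, Complex.norm_exp_ofReal_mul_I, one_mul, Complex.norm_real,
      Real.norm_of_nonneg (Real.exp_pos _).le]
  have h3 : ‖∑ j ∈ S, ((Real.sqrt Real.pi * T * Real.exp (-(T * (v * Real.log (n j) - y0)) ^ 2 / 4) : ℝ) : ℂ)‖ ≤
      ∫ t : ℝ, Real.exp (-(t / T) ^ 2) * ‖GP S n v t‖ := by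
    rw [← h1]
    refine (norm_integral_le_integral_norm _).trans (le_of_eq ?_)
    exact integral_congr_ae (Filter.Eventually.of_forall h2)
  rw [← Complex.ofReal_sum, Complex.norm_real, Real.norm_of_nonneg (Finset.sum_nonneg fun j _ => by positivity)]
    at h3
  have h4 : ∀ j ∈ S.filter (fun j => |v * Real.log (n j) - y0| ≤ 1 / T), T ≤
      Real.sqrt Real.pi * T * Real.exp (-(T * (v * Real.log (n j) - y0)) ^ 2 / 4) := by
    intro j hj
    rw [Finset.mem_filter] at hj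
    have h5 : (T * (v * Real.log (n j) - y0)) ^ 2 ≤ 1 := by
      rw [sq_le_one_iff_abs_le_one, abs_mul, abs_of_pos hT0]
      calc T * |v * Real.log (n j) - y0| ≤ T * (1 / T) := mul_le_mul_of_nonneg_left hj.2 hT0.le
        _ = 1 := by field_simp
    have h6 : Real.exp (-(1 / 4)) ≤ Real.exp (-(T * (v * Real.log (n j) - y0)) ^ 2 / 4) :=
      Real.exp_le_exp.2 (by linarith)
    have h7 : (3 / 4 : ℝ) ≤ Real.exp (-(1 / 4)) := by
      have := Real.add_one_le_exp (-(1 / 4) : ℝ)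
      linarith
    have h8 : (4 / 3 : ℝ) ≤ Real.sqrt Real.pi := by
      apply Real.le_sqrt_of_sq_le
      have := Real.pi_gt_three
      norm_num
      linarith
    calc T = (4 / 3) * T * (3 / 4) := by ring
      _ ≤ Real.sqrt Real.pi * T * Real.exp (-(T * (v * Real.log (n j) - y0)) ^ 2 / 4) :=
        mul_le_mul (mul_le_mul_of_nonneg_right h8 hT0.le) (h7.trans h6) (by norm_num) (by positivity)
  have h9 : ((S.filter (fun j => |v * Real.log (n j) - y0| ≤ 1 / T)).card : ℝ) * T ≤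
      ∑ j ∈ S, Real.sqrt Real.pi * T * Real.exp (-(T * (v * Real.log (n j) - y0)) ^ 2 / 4) := by
    refine le_trans ?_ (Finset.sum_le_sum_of_subset_of_nonneg
      (Finset.filter_subset (fun j => |v * Real.log (n j) - y0| ≤ 1 / T) S) fun j _ _ => by positivity)
    have := Finset.card_nsmul_le_sum (S.filter (fun j => |v * Real.log (n j) - y0| ≤ 1 / T))
      (fun j => Real.sqrt Real.pi * T * Real.exp (-(T * (v * Real.log (n j) - y0)) ^ 2 / 4)) T h4
    rwa [nsmul_eq_mul] at this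
  rw [div_mul_eq_mul_div, one_mul, le_div_iff₀ hT0]
  exact h9.trans h3

end Pool.Agent.Helper18.KP
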