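import Pool.Agent.Helper65.KC.MV2
import Pool.Agent.Helper89.SLE.Div

/-! Project KS, lemma POW: moments of short polynomials. -/

set_option autoImplicit false
open MeasureTheory Filter Topology Finset
open scoped Classical

namespace Pool.Agent.Helper18.KP

open Pool.Agent.Helper60.KS Pool.Agent.Helper65.KC

/-- group polynomial -/
noncomputable def GP {ι : Type} (S : Finset ι) (n : ι → ℕ) (v t : ℝ) : ℂ :=
  ∑ j ∈ S, Complex.exp (Complex.I * (((v * Real.log (n j)) * t : ℝ) : ℂ))

theorem second_moment : ∃ C : ℝ, 0 < C ∧ ∀ (ι : Type) (S : Finset ι) (n : ι → ℕ) (v T : ℝ) (M F : ℕ),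
    1 ≤ T → 1 ≤ v → (∀ j ∈ S, 1 ≤ n j ∧ n j ≤ M) → (∀ m : ℕ, (S.filter (fun j => n j = m)).card ≤ F) →
    ∫ t : ℝ, Real.exp (-(t / T) ^ 2) * ‖GP S n v t‖ ^ 2 ≤ C * T * (S.card * F * (1 + 3 * M / T)) := by
  obtain ⟨C, hC, h⟩ := meanValue
  refine ⟨C, hC, ?_⟩
  intro ι S n v T M F hT hv hn hF
  have hT0 : 0 < T := by linarith
  have h1 := h ι S (fun _ => 1) (fun j => v * Real.log (n j)) T hT
  have h2 : ∀ t : ℝ, ∑ j ∈ S, (1 : ℂ) * Complex.exp (Complex.I * (((v * Real.log (n j)) * t : ℝ) : ℂ)) =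
      GP S n v t := by
    intro t; unfold GP; simp
  simp_rw [h2] at h1
  refine h1.trans ?_
  refine mul_le_mul_of_nonneg_left ?_ (by positivity)
  have h3 : ∀ j ∈ S, ∑ k ∈ S, (if |v * Real.log (n j) - v * Real.log (n k)| ≤ 1 / T then
      ‖(1 : ℂ)‖ * ‖(1 : ℂ)‖ else 0) ≤ (F : ℝ) * (1 + 3 * M / T) := by
    intro j hj
    have hj1 := hn j hj
    rw [← Finset.sum_filter]
    simp only [norm_one, mul_one, Finset.sum_const, nsmul_eq_mul]
    have h4 : (S.filter (fun k => |v * Real.log (n j) - v * Real.log (n k)| ≤ 1 / T)).card ≤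
        F * ((Icc 1 M).filter (fun k : ℕ => |Real.log (n j) - Real.log k| ≤ 1 / T)).card := by
      refine Finset.card_le_mul_card_image_of_maps_to (f := n) ?_ F ?_
      · intro k hk
        rw [Finset.mem_filter] at hk
        rw [Finset.mem_filter, Finset.mem_Icc]
        refine ⟨hn k hk.1, ?_⟩
        have e : v * Real.log (n j) - v * Real.log (n k) = v * (Real.log (n j) - Real.log (n k)) := by ring
        have h5 := hk.2
        rw [e, abs_mul, abs_of_pos (by linarith)] at h5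
        have h6 : |Real.log (n j) - Real.log (n k)| ≤ v * |Real.log (n j) - Real.log (n k)| := by
          have := abs_nonneg (Real.log (n j) - Real.log (n k))
          nlinarith
        exact h6.trans h5
      · intro m _
        refine (Finset.card_le_card ?_).trans (hF m)
        intro k hk
        rw [Finset.mem_filter] at hk ⊢
        rw [Finset.mem_filter] at hk
        exact ⟨hk.1.1, hk.2⟩
    have h7 := card_log_near M (n j) T hT hj1.1
    have h8 : ((S.filter (fun k => |v * Real.log (n j) - v * Real.log (n k)| ≤ 1 / T)).card : ℝ) ≤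
        F * ((Icc 1 M).filter (fun k : ℕ => |Real.log (n j) - Real.log k| ≤ 1 / T)).card := by
      exact_mod_cast h4
    refine h8.trans (mul_le_mul_of_nonneg_left ?_ (Nat.cast_nonneg _))
    refine h7.trans ?_
    have : (n j : ℝ) ≤ M := by exact_mod_cast hj1.2
    have h9 : 3 * (n j : ℝ) / T ≤ 3 * M / T := div_le_div_of_nonneg_right (by linarith) hT0.le
    linarith
  refine (Finset.sum_le_sum h3).trans ?_
  rw [Finset.sum_const, nsmul_eq_mul]
  apply le_of_eq
  ring

theorem GP_pow {ι : Type} (S : Finset ι) (n : ι → ℕ) (hn : ∀ j ∈ S, 1 ≤ n j) (v t : ℝ) (κ : ℕ) :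
    GP S n v t ^ κ = GP (Fintype.piFinset (fun _ : Fin κ => S)) (fun p => ∏ i, n (p i)) v t := by
  unfold GP
  have h1 : (∑ j ∈ S, Complex.exp (Complex.I * (((v * Real.log (n j)) * t : ℝ) : ℂ))) ^ κ =
      ∏ _i : Fin κ, ∑ j ∈ S, Complex.exp (Complex.I * (((v * Real.log (n j)) * t : ℝ) : ℂ)) := by
    rw [Finset.prod_const, Finset.card_univ, Fintype.card_fin]
  rw [h1, Finset.prod_univ_sum]
  refine Finset.sum_congr rfl fun p hp => ?_
  rw [← Complex.exp_sum]
  congr 1
  have hp1 : ∀ i, p i ∈ S := fun i => (Fintype.mem_piFinset.1 hp) i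
  have h2 : Real.log ((∏ i, n (p i) : ℕ) : ℝ) = ∑ i, Real.log (n (p i)) := by
    push_cast
    rw [Real.log_prod]
    intro i _
    have := hn (p i) (hp1 i)
    exact_mod_cast (by omega : n (p i) ≠ 0)
  rw [h2, ← Finset.mul_sum]
  congr 1
  rw [Finset.mul_sum, Finset.sum_mul]
  push_cast
  rfl

theorem moment : ∃ C : ℝ, 0 < C ∧ ∀ (κ : ℕ) (ι : Type) (S : Finset ι) (n : ι → ℕ) (v T : ℝ) (M F D : ℕ),
    1 ≤ T → 1 ≤ v → (∀ j ∈ S, 1 ≤ n j ∧ n j ≤ M) → (∀ m : ℕ, (S.filter (fun j => n j = m)).card ≤ F) →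
    (∀ m : ℕ, 1 ≤ m → m ≤ M ^ κ → m.divisors.card ≤ D) →
    ∫ t : ℝ, Real.exp (-(t / T) ^ 2) * ‖GP S n v t‖ ^ (2 * κ) ≤
      C * T * ((S.card : ℝ) ^ κ * (F * D : ℝ) ^ κ * (1 + 3 * (M : ℝ) ^ κ / T)) := by
  obtain ⟨C, hC, h⟩ := second_moment
  refine ⟨C, hC, ?_⟩
  intro κ ι S n v T M F D hT hv hn hF hD
  have h1 := h (Fin κ → ι) (Fintype.piFinset (fun _ : Fin κ => S)) (fun p => ∏ i, n (p i)) v T (M ^ κ)
    ((F * D) ^ κ) hT hv ?_ ?_
  · have h2 : ∀ t : ℝ, ‖GP (Fintype.piFinset (fun _ : Fin κ => S)) (fun p => ∏ i, n (p i)) v t‖ ^ 2 =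
        ‖GP S n v t‖ ^ (2 * κ) := by
      intro t
      rw [← GP_pow S n (fun j hj => (hn j hj).1) v t κ, norm_pow, ← pow_mul, mul_comm κ 2]
    simp_rw [h2] at h1
    refine h1.trans (le_of_eq ?_)
    rw [Fintype.card_piFinset]
    push_cast
    simp only [Finset.prod_const, Finset.card_univ, Fintype.card_fin]
  · intro p hp
    have hp1 : ∀ i, p i ∈ S := fun i => (Fintype.mem_piFinset.1 hp) i
    constructor
    · exact Nat.one_le_iff_ne_zero.2 (Finset.prod_ne_zero_iff.2 fun i _ => by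
        have := (hn (p i) (hp1 i)).1
        omega)
    · refine (Finset.prod_le_prod' (fun i _ => (hn (p i) (hp1 i)).2)).trans ?_
      rw [Finset.prod_const, Finset.card_univ, Fintype.card_fin]
  · intro m
    rcases Finset.eq_empty_or_nonempty ((Fintype.piFinset (fun _ : Fin κ => S)).filter
      (fun p => ∏ i, n (p i) = m)) with he | ⟨q, hq⟩
    · rw [he]; simp
    rw [Finset.mem_filter] at hq
    have hq1 : ∀ i, q i ∈ S := fun i => (Fintype.mem_piFinset.1 hq.1) i
    have hm1 : 1 ≤ m := by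
      rw [← hq.2]
      exact Nat.one_le_iff_ne_zero.2 (Finset.prod_ne_zero_iff.2 fun i _ => by
        have := (hn (q i) (hq1 i)).1
        omega)
    have hm2 : m ≤ M ^ κ := by
      rw [← hq.2]
      refine (Finset.prod_le_prod' (fun i _ => (hn (q i) (hq1 i)).2)).trans ?_
      rw [Finset.prod_const, Finset.card_univ, Fintype.card_fin]
    have hsub : (Fintype.piFinset (fun _ : Fin κ => S)).filter (fun p => ∏ i, n (p i) = m) ⊆
        Fintype.piFinset (fun _ : Fin κ => S.filter (fun j => n j ∣ m)) := by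
      intro p hp
      rw [Finset.mem_filter] at hp
      rw [Fintype.mem_piFinset]
      intro i
      rw [Finset.mem_filter]
      refine ⟨(Fintype.mem_piFinset.1 hp.1) i, ?_⟩
      rw [← hp.2]
      exact Finset.dvd_prod_of_mem (fun i => n (p i)) (Finset.mem_univ i)
    refine (Finset.card_le_card hsub).trans ?_
    rw [Fintype.card_piFinset]
    simp only [Finset.prod_const, Finset.card_univ, Fintype.card_fin]
    refine Nat.pow_le_pow_left ?_ κ
    have h5 : (S.filter (fun j => n j ∣ m)).card ≤ F * m.divisors.card := by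
      refine Finset.card_le_mul_card_image_of_maps_to (f := n) ?_ F ?_
      · intro k hk
        rw [Finset.mem_filter] at hk
        rw [Nat.mem_divisors]
        exact ⟨hk.2, by omega⟩
      · intro d _
        refine (Finset.card_le_card ?_).trans (hF d)
        intro k hk
        rw [Finset.mem_filter] at hk ⊢
        rw [Finset.mem_filter] at hk
        exact ⟨hk.1.1, hk.2⟩
    exact h5.trans (Nat.mul_le_mul_left F (hD m hm1 hm2))

end Pool.Agent.Helper18.KP
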