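import Pool.Agent.Helper18.KP.Arith

/-! Project KS, lemma POW. -/

set_option autoImplicit false
open MeasureTheory Filter Topology Finset
open scoped Classical

namespace Pool.Agent.Helper18.KP

/-- the weight `(k/rad k)^(1/2)` -/
noncomputable def wt (k : ℕ) : ℝ := Real.sqrt ((k : ℝ) / ∏ p ∈ k.primeFactors, (p : ℝ))

theorem rad_pos (k : ℕ) : (1 : ℝ) ≤ ∏ p ∈ k.primeFactors, (p : ℝ) := by
  have : (1 : ℝ) = ∏ p ∈ k.primeFactors, (1 : ℝ) := by simp
  rw [this]
  refine Finset.prod_le_prod (fun _ _ => by norm_num) fun p hp => ?_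
  exact_mod_cast (Nat.prime_of_mem_primeFactors hp).one_le

theorem wt_le_sqrt (k : ℕ) : wt k ≤ Real.sqrt k := by
  unfold wt
  refine Real.sqrt_le_sqrt ?_
  exact div_le_self (Nat.cast_nonneg _) (rad_pos k)

theorem wt_nonneg (k : ℕ) : 0 ≤ wt k := Real.sqrt_nonneg _

theorem wt_le (r k : ℕ) : wt k ≤ Real.sqrt k * ∏ i : Fin r, (Real.sqrt (cp k ((i : ℕ) + 1)))⁻¹ := by
  have h1 : (∏ i : Fin r, (cp k ((i : ℕ) + 1) : ℝ)) ≤ ∏ p ∈ k.primeFactors, (p : ℝ) := by
    have h := (Nat.cast_le (α := ℝ)).2 (prod_cp_le r k)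
    push_cast at h
    exact h
  have h0 : 0 < ∏ i : Fin r, (cp k ((i : ℕ) + 1) : ℝ) :=
    Finset.prod_pos fun i _ => by exact_mod_cast cp_pos k _
  have h2 : Real.sqrt k * ∏ i : Fin r, (Real.sqrt (cp k ((i : ℕ) + 1)))⁻¹ =
      Real.sqrt ((k : ℝ) / ∏ i : Fin r, (cp k ((i : ℕ) + 1) : ℝ)) := by
    rw [Real.sqrt_div (Nat.cast_nonneg _), div_eq_mul_inv, Finset.prod_inv_distrib]
    congr 2
    rw [Real.sqrt_eq_rpow, ← Real.finsetProd_rpow _ _ (fun i _ => Nat.cast_nonneg _)]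
    exact Finset.prod_congr rfl fun i _ => (Real.sqrt_eq_rpow _)
  rw [h2]
  unfold wt
  refine Real.sqrt_le_sqrt ?_
  exact div_le_div_of_nonneg_left (Nat.cast_nonneg _) h0 h1

theorem log2_le (δ : ℝ) (hδ : 0 < δ) : ∃ A : ℝ, 0 < A ∧ ∀ n : ℕ, 1 ≤ n → ((Nat.log 2 n : ℕ) : ℝ) + 1 ≤ A * (n : ℝ) ^ δ := by
  refine ⟨1 / (δ * Real.log 2) + 1, by have := Real.log_pos (show (1 : ℝ) < 2 by norm_num); positivity, ?_⟩
  intro n hn
  have hn1 : (1 : ℝ) ≤ n := by exact_mod_cast hn
  have hl2 : 0 < Real.log 2 := Real.log_pos (by norm_num)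
  have h1 : ((2 ^ Nat.log 2 n : ℕ) : ℝ) ≤ n := by exact_mod_cast Nat.pow_log_le_self 2 (by omega)
  have h2 : ((Nat.log 2 n : ℕ) : ℝ) * Real.log 2 ≤ Real.log n := by
    have := Real.log_le_log (by positivity) h1
    push_cast at this
    rwa [Real.log_pow] at this
  have h3 : Real.log n ≤ (n : ℝ) ^ δ / δ := Real.log_le_rpow_div (by linarith) hδ
  have h4 : (1 : ℝ) ≤ (n : ℝ) ^ δ := Real.one_le_rpow hn1 hδ.le
  have h5 : ((Nat.log 2 n : ℕ) : ℝ) ≤ 1 / (δ * Real.log 2) * (n : ℝ) ^ δ := by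
    rw [div_mul_eq_mul_div, one_mul, le_div_iff₀ (by positivity)]
    rw [le_div_iff₀ hδ] at h3
    calc ((Nat.log 2 n : ℕ) : ℝ) * (δ * Real.log 2) = (((Nat.log 2 n : ℕ) : ℝ) * Real.log 2) * δ := by ring
      _ ≤ Real.log n * δ := mul_le_mul_of_nonneg_right h2 hδ.le
      _ ≤ (n : ℝ) ^ δ := h3
  linarith

/-- short windows, large `x` -/
theorem pow_short_large (ε : ℝ) (hε : 0 < ε) : ∃ A : ℝ, 0 < A ∧ ∀ x y : ℝ, (2 : ℝ) ^ 36 ≤ x → 0 ≤ y →
    y ≤ Real.sqrt x → ∑ k ∈ Icc ⌈x⌉₊ ⌊x + y⌋₊, wt k ≤ A * Real.sqrt x * x ^ ε := by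
  -- parameters
  obtain ⟨m, hm⟩ : ∃ m : ℕ, 4 / ε ≤ m := exists_nat_ge _
  set r : ℕ := m + 2 with hr
  set V : ℕ := r + 1 with hV
  set ε1 : ℝ := ε / 4 with hε1
  have hε10 : 0 < ε1 := by positivity
  set ε2 : ℝ := ε1 / r with hε2
  have hr0 : (0 : ℝ) < r := by rw [hr]; positivity
  have hε20 : 0 < ε2 := by positivity
  obtain ⟨A0, hA0, hbox⟩ := box_bound m ε1 hε10
  obtain ⟨Cd, hCd, hdiv⟩ := Pool.Agent.Helper89.SLE.divisor_bound ε1 hε10
  obtain ⟨Al, hAl, hlog⟩ := log2_le ε2 hε20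
  refine ⟨2 * A0 * (2 * (Cd * 2 ^ ε1) * (Al * 2 ^ ε2) ^ r), by positivity, ?_⟩
  intro x y hx hy hyx
  have hx1 : (1 : ℝ) ≤ x := le_trans (by norm_num) hx
  have hx0 : 0 < x := by linarith
  set T : ℝ := Real.sqrt x with hT
  have hTsq : T ^ 2 = x := Real.sq_sqrt hx0.le
  have hT18 : (2 : ℝ) ^ 18 ≤ T := by
    rw [hT]
    apply Real.le_sqrt_of_sq_le
    rw [← pow_mul]
    exact hx
  have hT1 : (1 : ℝ) ≤ T := le_trans (by norm_num) hT18
  have hT0 : 0 < T := by linarith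
  have hTx : T ≤ x := by nlinarith
  have hyx' : y ≤ x := hyx.trans hTx
  set K := Icc ⌈x⌉₊ ⌊x + y⌋₊ with hK
  have hKmem : ∀ k ∈ K, x ≤ k ∧ (k : ℝ) ≤ x + y ∧ 1 ≤ k := by
    intro k hk
    rw [hK, Finset.mem_Icc] at hk
    have h1 : x ≤ k := Nat.ceil_le.1 hk.1
    have h2 : (k : ℝ) ≤ x + y := (Nat.le_floor_iff (by linarith)).1 hk.2
    refine ⟨h1, h2, ?_⟩
    have : (1 : ℝ) ≤ k := by linarith
    exact_mod_cast this
  set X2 : ℕ := ⌊2 * x⌋₊ with hX2
  have hX2r : (X2 : ℝ) ≤ 2 * x := Nat.floor_le (by linarith)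
  have hkX2 : ∀ k ∈ K, k ≤ X2 := fun k hk => Nat.le_floor (by have := hKmem k hk; linarith)
  have hX21 : 1 ≤ X2 := Nat.le_floor (by push_cast; linarith)
  set L : ℕ := Nat.log 2 X2 with hL
  set Amax : ℕ := ⌊(2 * x) ^ ((1 : ℝ) / V)⌋₊ with hAmax
  set keys : Finset (Σ _ : ℕ, ℕ × (Fin r → ℕ)) :=
    (Icc 1 Amax).sigma (fun a => (a ^ V).divisors.filter (fun _ => a ^ V ≤ X2) ×ˢ
      Fintype.piFinset (fun _ : Fin r => Finset.range (L + 1))) with hkeys
  set g : ℕ → (Σ _ : ℕ, ℕ × (Fin r → ℕ)) := fun k => ⟨ap V k, (bp V k, fun i => Nat.log 2 (cp k ((i : ℕ) + 1)))⟩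
    with hg
  have hapk : ∀ k ∈ K, ap V k ^ V ≤ k ∧ ∀ i : Fin r, cp k ((i : ℕ) + 1) ≤ k := by
    intro k hk
    have hk1 := (hKmem k hk).2.2
    have hd := decomp r k (by omega)
    have hvpos : 1 ≤ val (fun i : Fin r => cp k ((i : ℕ) + 1)) :=
      Nat.one_le_iff_ne_zero.2 (Finset.prod_ne_zero_iff.2 fun i _ => pow_ne_zero _ (Nat.one_le_iff_ne_zero.1 (cp_pos k _)))
    have ha := ap_pos V k
    have hb := bp_pos V k
    constructor
    · calc ap V k ^ V ≤ ap V k ^ V * (bp V k * val (fun i : Fin r => cp k ((i : ℕ) + 1))) :=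
            Nat.le_mul_of_pos_right _ (by positivity)
        _ = k := by rw [← mul_assoc]; exact hd.symm
    · intro i
      have h1 : cp k ((i : ℕ) + 1) ∣ k := by
        refine (dvd_pow_self _ (by omega : (i : ℕ) + 1 ≠ 0)).trans ?_
        refine (Finset.dvd_prod_of_mem (fun i : Fin r => cp k ((i : ℕ) + 1) ^ ((i : ℕ) + 1)) (Finset.mem_univ i)).trans ?_
        exact (Dvd.intro_left _ hd.symm)
      exact Nat.le_of_dvd (by omega) h1
  have hmaps : ∀ k ∈ K, g k ∈ keys := by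
    intro k hk
    have h1 := hapk k hk
    have h2 := hkX2 k hk
    rw [hkeys, Finset.mem_sigma, Finset.mem_product, Finset.mem_filter, Fintype.mem_piFinset]
    refine ⟨?_, ⟨?_, ?_⟩, ?_⟩
    · rw [Finset.mem_Icc]
      refine ⟨ap_pos V k, Nat.le_floor ?_⟩
      have h3 : ((ap V k : ℝ)) ^ V ≤ 2 * x := by
        have : ((ap V k ^ V : ℕ) : ℝ) ≤ 2 * x := le_trans (by exact_mod_cast h1.1.trans h2) hX2r
        exact_mod_cast this
      have h4 := Real.rpow_le_rpow (by positivity) h3 (by positivity : (0 : ℝ) ≤ 1 / V)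
      have h5 : (((ap V k : ℝ)) ^ V) ^ ((1 : ℝ) / V) = ap V k := by
        rw [← Real.rpow_natCast, ← Real.rpow_mul (Nat.cast_nonneg _), mul_one_div_cancel, Real.rpow_one]
        rw [hV]; positivity
      rwa [h5] at h4
    · rw [Nat.mem_divisors]
      exact ⟨bp_dvd V k (by omega), pow_ne_zero _ (Nat.one_le_iff_ne_zero.1 (ap_pos V k))⟩
    · exact h1.1.trans h2
    · intro i
      rw [Finset.mem_range]
      have := Nat.log_mono_right (b := 2) ((h1.2 i).trans h2)
      show Nat.log 2 (cp k ((i : ℕ) + 1)) < L + 1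
      omega
  rw [← Finset.sum_fiberwise_of_maps_to hmaps]
  -- bound for one key
  have hkey : ∀ κ ∈ keys, ∑ k ∈ K.filter (fun k => g k = κ), wt k ≤ 2 * T * (A0 * T ^ ε1) := by
    intro κ _
    rcases Finset.eq_empty_or_nonempty (K.filter (fun k => g k = κ)) with he | ⟨k0, hk0⟩
    · rw [he, Finset.sum_empty]
      positivity
    rw [Finset.mem_filter] at hk0
    set w : ℕ := κ.1 ^ V * κ.2.1 with hw
    set C : Fin r → ℕ := fun i => 2 ^ (κ.2.2 i) with hC
    have hC1 : ∀ i, 1 ≤ C i := fun i => Nat.one_le_two_pow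
    have hfacts : ∀ k ∈ K, g k = κ → k = w * val (fun i : Fin r => cp k ((i : ℕ) + 1)) ∧
        ∀ i : Fin r, C i ≤ cp k ((i : ℕ) + 1) ∧ cp k ((i : ℕ) + 1) < 2 * C i := by
      intro k hk hgk
      have hk1 := (hKmem k hk).2.2
      have hd := decomp r k (by omega)
      have e1 : κ.1 = ap V k := by rw [← hgk]
      have e2 : κ.2.1 = bp V k := by rw [← hgk]
      have e3 : κ.2.2 = fun i : Fin r => Nat.log 2 (cp k ((i : ℕ) + 1)) := by rw [← hgk]
      refine ⟨?_, fun i => ?_⟩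
      · rw [hw, e1, e2]; exact hd
      · rw [hC, e3]
        simp only
        have hc := cp_pos k ((i : ℕ) + 1)
        refine ⟨Nat.pow_log_le_self 2 (by omega), ?_⟩
        rw [mul_comm, ← pow_succ]
        exact Nat.lt_pow_succ_log_self (by norm_num) _
    have hw1 : 1 ≤ w := by
      have := (hfacts k0 hk0.1 hk0.2).1
      rcases Nat.eq_zero_or_pos w with h | h
      · rw [h, zero_mul] at this
        have := (hKmem k0 hk0.1).2.2
        omega
      · exact h
    have hvalC : ((val C : ℕ) : ℝ) ≤ 2 * T ^ 2 := by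
      rw [hTsq]
      have h1 := hfacts k0 hk0.1 hk0.2
      have h2 : val C ≤ val (fun i : Fin r => cp k0 ((i : ℕ) + 1)) := by
        unfold val
        exact Finset.prod_le_prod' fun i _ => Nat.pow_le_pow_left (h1.2 i).1 _
      have h3 : val (fun i : Fin r => cp k0 ((i : ℕ) + 1)) ≤ k0 := by
        calc val (fun i : Fin r => cp k0 ((i : ℕ) + 1)) ≤ w * val (fun i : Fin r => cp k0 ((i : ℕ) + 1)) :=
              Nat.le_mul_of_pos_left _ (by omega)
          _ = k0 := h1.1.symm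
      exact le_trans (by exact_mod_cast (h2.trans h3).trans (hkX2 k0 hk0.1)) hX2r
    set y0 : ℝ := Real.log x - Real.log w with hy0
    have hN := hbox T C hT18 hC1 hvalC y0
    have hcard : (K.filter (fun k => g k = κ)).card ≤
        ((box C).filter (fun c => |Real.log (val c) - y0| ≤ 1 / T)).card := by
      refine Finset.card_le_card_of_injOn (fun k => fun i : Fin r => cp k ((i : ℕ) + 1)) ?_ ?_
      · intro k hk
        rw [Finset.mem_coe, Finset.mem_filter] at hk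
        have h1 := hfacts k hk.1 hk.2
        have h2 := hKmem k hk.1
        rw [Finset.mem_coe, Finset.mem_filter, box, Fintype.mem_piFinset]
        refine ⟨fun i => Finset.mem_Ico.2 (h1.2 i), ?_⟩
        have hk0' : (0 : ℝ) < k := by linarith
        have hw0 : (0 : ℝ) < w := by exact_mod_cast hw1
        have hv0 : (0 : ℝ) < ((val (fun i : Fin r => cp k ((i : ℕ) + 1)) : ℕ) : ℝ) := by
          have : 0 < val (fun i : Fin r => cp k ((i : ℕ) + 1)) :=
            Nat.pos_of_ne_zero (Finset.prod_ne_zero_iff.2 fun i _ => pow_ne_zero _ (Nat.one_le_iff_ne_zero.1 (cp_pos k _)))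
          exact_mod_cast this
        have h3 : Real.log k = Real.log w + Real.log ((val (fun i : Fin r => cp k ((i : ℕ) + 1)) : ℕ) : ℝ) := by
          rw [← Real.log_mul hw0.ne' hv0.ne']
          congr 1
          exact_mod_cast h1.1
        have h4 : Real.log ((val (fun i : Fin r => cp k ((i : ℕ) + 1)) : ℕ) : ℝ) - y0 = Real.log k - Real.log x := by
          rw [h3, hy0]; ring
        rw [h4, abs_of_nonneg (by have := Real.log_le_log hx0 h2.1; linarith)]
        rw [← Real.log_div hk0'.ne' hx0.ne']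
        have h5 := Real.log_le_sub_one_of_pos (show 0 < (k : ℝ) / x by positivity)
        refine h5.trans ?_
        have h6 : (k : ℝ) / x - 1 ≤ T / x := by
          rw [div_sub_one hx0.ne']
          refine div_le_div_of_nonneg_right ?_ hx0.le
          linarith
        refine h6.trans (le_of_eq ?_)
        rw [← hTsq]
        field_simp
      · intro k hk k' hk' hkk
        rw [Finset.mem_coe, Finset.mem_filter] at hk hk'
        have h1 := (hfacts k hk.1 hk.2).1
        have h2 := (hfacts k' hk'.1 hk'.2).1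
        rw [h1, h2]
        simp only at hkk
        rw [hkk]
    have hterm : ∀ k ∈ K.filter (fun k => g k = κ), wt k ≤ 2 * T * ∏ i, (Real.sqrt (C i))⁻¹ := by
      intro k hk
      rw [Finset.mem_filter] at hk
      have h1 := hfacts k hk.1 hk.2
      have h2 := hKmem k hk.1
      refine (wt_le r k).trans ?_
      refine mul_le_mul ?_ ?_ (Finset.prod_nonneg fun i _ => by positivity) (by positivity)
      · rw [Real.sqrt_le_left (by positivity)]
        nlinarith
      · refine Finset.prod_le_prod (fun i _ => by positivity) fun i _ => ?_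
        have hCi : (0 : ℝ) < C i := by exact_mod_cast hC1 i
        refine inv_anti₀ (Real.sqrt_pos.2 hCi) (Real.sqrt_le_sqrt ?_)
        exact_mod_cast (h1.2 i).1
    have hP : (∏ i, (Real.sqrt (C i))⁻¹) * ∏ i, Real.sqrt (C i) = 1 := by
      rw [← Finset.prod_mul_distrib]
      refine Finset.prod_eq_one fun i _ => ?_
      have hCi : (0 : ℝ) < C i := by exact_mod_cast hC1 i
      exact inv_mul_cancel₀ (Real.sqrt_pos.2 hCi).ne'
    calc ∑ k ∈ K.filter (fun k => g k = κ), wt k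
        ≤ ∑ k ∈ K.filter (fun k => g k = κ), 2 * T * ∏ i, (Real.sqrt (C i))⁻¹ := Finset.sum_le_sum hterm
      _ = ((K.filter (fun k => g k = κ)).card : ℝ) * (2 * T * ∏ i, (Real.sqrt (C i))⁻¹) := by
        rw [Finset.sum_const, nsmul_eq_mul]
      _ ≤ (A0 * T ^ ε1 * ∏ i, Real.sqrt (C i)) * (2 * T * ∏ i, (Real.sqrt (C i))⁻¹) := by
        refine mul_le_mul_of_nonneg_right ?_ (by
          have : 0 ≤ ∏ i, (Real.sqrt (C i))⁻¹ := Finset.prod_nonneg fun i _ => by positivity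
          positivity)
        exact le_trans (by exact_mod_cast hcard) hN
      _ = 2 * T * (A0 * T ^ ε1) * ((∏ i, (Real.sqrt (C i))⁻¹) * ∏ i, Real.sqrt (C i)) := by ring
      _ = 2 * T * (A0 * T ^ ε1) := by rw [hP, mul_one]
  refine (Finset.sum_le_sum hkey).trans ?_
  rw [Finset.sum_const, nsmul_eq_mul]
  -- number of keys
  have h2x1 : (1 : ℝ) ≤ 2 * x := by linarith
  have hkeyscard : (keys.card : ℝ) ≤ (2 * x) ^ ((1 : ℝ) / V) * ((Cd * 2 ^ ε1 * x ^ ε1) * (Al * 2 ^ ε2 * x ^ ε2) ^ r) := by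
    rw [hkeys, Finset.card_sigma]
    push_cast
    have h1 : ∀ a ∈ Icc 1 Amax, (((((a ^ V).divisors.filter (fun _ => a ^ V ≤ X2)) ×ˢ
        Fintype.piFinset (fun _ : Fin r => Finset.range (L + 1))).card : ℕ) : ℝ) ≤
        (Cd * 2 ^ ε1 * x ^ ε1) * (Al * 2 ^ ε2 * x ^ ε2) ^ r := by
      intro a ha
      rw [Finset.mem_Icc] at ha
      rw [Finset.card_product, Fintype.card_piFinset]
      push_cast
      simp only [Finset.card_range, Finset.prod_const, Finset.card_univ, Fintype.card_fin]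
      push_cast
      refine mul_le_mul ?_ ?_ (by positivity) (by positivity)
      · by_cases haX : a ^ V ≤ X2
        · rw [Finset.filter_true_of_mem (fun _ _ => haX)]
          refine (hdiv (a ^ V) (Nat.pow_pos (by omega))).trans ?_
          rw [mul_assoc, ← Real.mul_rpow (by norm_num) hx0.le]
          refine mul_le_mul_of_nonneg_left ?_ (by linarith)
          refine Real.rpow_le_rpow (Nat.cast_nonneg _) ?_ hε10.le
          exact le_trans (by exact_mod_cast haX) hX2r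
        · rw [Finset.filter_false_of_mem (fun _ _ => haX)]
          rw [Finset.card_empty]
          push_cast
          positivity
      · refine pow_le_pow_left₀ (by positivity) ?_ r
        refine (hlog X2 hX21).trans ?_
        rw [mul_assoc, ← Real.mul_rpow (by norm_num) hx0.le]
        exact mul_le_mul_of_nonneg_left (Real.rpow_le_rpow (Nat.cast_nonneg _) hX2r hε20.le) hAl.le
    refine (Finset.sum_le_sum h1).trans ?_
    rw [Finset.sum_const, nsmul_eq_mul, Nat.card_Icc, Nat.add_sub_cancel]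
    exact mul_le_mul_of_nonneg_right (Nat.floor_le (by positivity)) (by positivity)
  have h2V : (2 * x) ^ ((1 : ℝ) / V) ≤ 2 * x ^ ε1 := by
    have hV1 : (1 : ℝ) ≤ V := by rw [hV]; push_cast; linarith
    have h3 : (1 : ℝ) / V ≤ ε1 := by
      rw [div_le_iff₀ (by linarith)]
      have h4 : 4 / ε ≤ V := by rw [hV, hr]; push_cast; linarith
      rw [div_le_iff₀ hε] at h4
      rw [hε1]
      linarith
    rw [Real.mul_rpow (by norm_num) hx0.le]
    refine mul_le_mul ?_ (Real.rpow_le_rpow_of_exponent_le hx1 h3) (by positivity) (by norm_num)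
    calc (2 : ℝ) ^ ((1 : ℝ) / V) ≤ 2 ^ (1 : ℝ) := Real.rpow_le_rpow_of_exponent_le (by norm_num) (by
          rw [div_le_one (by linarith)]; exact hV1)
      _ = 2 := Real.rpow_one 2
  have hTε : T ^ ε1 ≤ x ^ ε1 := Real.rpow_le_rpow hT0.le hTx hε10.le
  have hfin : x ^ ε1 * x ^ ε1 * (x ^ ε2) ^ r * x ^ ε1 = x ^ ε := by
    rw [← Real.rpow_natCast (x ^ ε2), ← Real.rpow_mul hx0.le, ← Real.rpow_add hx0, ← Real.rpow_add hx0,
      ← Real.rpow_add hx0]
    congr 1
    rw [hε2, div_mul_cancel₀ _ hr0.ne', hε1]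
    ring
  calc (keys.card : ℝ) * (2 * T * (A0 * T ^ ε1))
      ≤ (2 * x ^ ε1 * ((Cd * 2 ^ ε1 * x ^ ε1) * (Al * 2 ^ ε2 * x ^ ε2) ^ r)) * (2 * T * (A0 * x ^ ε1)) := by
        refine mul_le_mul ?_ ?_ (by positivity) (by positivity)
        · refine hkeyscard.trans ?_
          exact mul_le_mul_of_nonneg_right h2V (by positivity)
        · exact mul_le_mul_of_nonneg_left (mul_le_mul_of_nonneg_left hTε hA0.le) (by positivity)
    _ = 2 * A0 * (2 * (Cd * 2 ^ ε1) * (Al * 2 ^ ε2) ^ r) * T * (x ^ ε1 * x ^ ε1 * (x ^ ε2) ^ r * x ^ ε1) := by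
        rw [mul_pow (Al * 2 ^ ε2)]
        ring
    _ = 2 * A0 * (2 * (Cd * 2 ^ ε1) * (Al * 2 ^ ε2) ^ r) * T * x ^ ε := by rw [hfin]

end Pool.Agent.Helper18.KP
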